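import Mathlib

/-!
# Boolean dimension of posets with planar cover graphs (MP_c9fc14_co): definitions of the blocks M and N

`G` a finite simple graph, `rk` an injective rank function; edges are oriented to the larger rank.
A contour `Ct` of a rooted tree: positions (integers) of the darts `(u,w)` at the vertices of the tree,
and for every vertex `v` a block `[lo v, hi v]` containing all darts at the descendants of `v`.
-/

set_option autoImplicit false

namespace Pool.BD

open Relation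

variable {V : Type}

/-- oriented edge -/
def Ar (G : SimpleGraph V) (rk : V → ℕ) (u v : V) : Prop := G.Adj u v ∧ rk u < rk v

/-- reachability -/
def Re (G : SimpleGraph V) (rk : V → ℕ) (u v : V) : Prop := ReflTransGen (Ar G rk) u v

/-- joined by a walk inside `X` -/
def Cn (G : SimpleGraph V) (X : Set V) (u v : V) : Prop :=
  u ∈ X ∧ ReflTransGen (fun a b => G.Adj a b ∧ b ∈ X) u v

/-- contour data -/
structure Ct (V : Type) where
  /-- parent -/
  par : V → V
  /-- position of the dart `(u,w)` -/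
  pos : V → V → ℤ
  /-- left end of the block of `v` -/
  lo : V → ℤ
  /-- right end of the block of `v` -/
  hi : V → ℤ

/-- `w` is a tree child of `u` in the hub `H` with root `q` -/
def Ch (H : Set V) (q : V) (c : Ct V) (u w : V) : Prop := w ∈ H ∧ w ≠ q ∧ c.par w = u

/-- `(u,w)` is a dart of the contour: `u` in the hub, `w` is not the parent of `u`, and for the root
`u = q` the dart is in the sector `Q` -/
def Dn (G : SimpleGraph V) (H : Set V) (q : V) (Q : Set V) (c : Ct V) (u w : V) : Prop :=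
  u ∈ H ∧ G.Adj u w ∧ (u = q → w ∈ Q) ∧ (u ≠ q → w ≠ c.par u)

/-- feet of the subhub `H'`: darts at `H'`, not tree darts inside `H'` -/
def Ft (G : SimpleGraph V) (H H' : Set V) (q : V) (Q : Set V) (c : Ct V) (d : V × V) : Prop :=
  d.1 ∈ H' ∧ Dn G H q Q c d.1 d.2 ∧ ¬ (Ch H q c d.1 d.2 ∧ d.2 ∈ H')

/-- a connector of `H'`: the two darts of a chord, or two darts joined inside `X`, outside `H'` -/
def Lk (G : SimpleGraph V) (H' X : Set V) (d e : V × V) : Prop :=
  (X = ∅ ∧ d.2 ∈ H' ∧ e = (d.2, d.1)) ∨ (Disjoint X H' ∧ Cn G X d.2 e.2)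

/-- contour of the tree `par` on the hub `H` with root `q`, seen from the sector `Q` of the root -/
structure IsCt (G : SimpleGraph V) (H : Set V) (q : V) (Q : Set V) (c : Ct V) : Prop where
  qH : q ∈ H
  par : ∀ v ∈ H, v ≠ q → c.par v ∈ H ∧ G.Adj (c.par v) v
  QH : ∀ w ∈ H, G.Adj q w → w ∈ Q
  lh : ∀ v ∈ H, c.lo v < c.hi v
  dn : ∀ u w, Dn G H q Q c u w → c.lo u < c.pos u w ∧ c.pos u w < c.hi u
  ch : ∀ w ∈ H, w ≠ q → c.lo (c.par w) < c.lo w ∧ c.lo w ≤ c.pos (c.par w) w ∧
    c.pos (c.par w) w ≤ c.hi w ∧ c.hi w < c.hi (c.par w)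
  inj : ∀ u w w', Dn G H q Q c u w → Dn G H q Q c u w' → c.pos u w = c.pos u w' → w = w'
  sep : ∀ u w w', Dn G H q Q c u w → Dn G H q Q c u w' → c.pos u w < c.pos u w' →
    (Ch H q c u w → c.hi w < c.pos u w') ∧ (Ch H q c u w' → c.pos u w < c.lo w') ∧
    (Ch H q c u w → Ch H q c u w' → c.hi w < c.lo w')
  nc : ∀ H' : Set V, H' ⊆ H → q ∈ H' → (∀ v ∈ H', v ≠ q → c.par v ∈ H') →
    ∀ (X Y : Set V), Disjoint X Y → ∀ d d' e e' : V × V,
      Ft G H H' q Q c d → Ft G H H' q Q c d' → Ft G H H' q Q c e → Ft G H H' q Q c e' →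
      Lk G H' X d d' → Lk G H' Y e e' →
      ¬ (c.pos d.1 d.2 < c.pos e.1 e.2 ∧ c.pos e.1 e.2 < c.pos d'.1 d'.2 ∧
        c.pos d'.1 d'.2 < c.pos e'.1 e'.2)

/-- cyclic order of three integers -/
def Cyc (a b c : ℤ) : Prop := (a < b ∧ b < c) ∨ (b < c ∧ c < a) ∨ (c < a ∧ a < b)

open Classical in
/-- position of the dart `(u,w)` at `u`, the parent dart is at the end of the block -/
noncomputable def Ct.val (c : Ct V) (u w : V) : ℤ := if w = c.par u then c.hi u else c.pos u w

/-- a leftmost and a rightmost contour on the same hub, with the same rotation at every vertex -/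
structure NIok (G : SimpleGraph V) (rk : V → ℕ) (H : Set V) (q : V) (Q : Set V) (L R : Ct V) :
    Prop where
  isL : IsCt G H q Q L
  isR : IsCt G H q Q R
  parL : ∀ v ∈ H, v ≠ q → rk (L.par v) < rk v
  parR : ∀ v ∈ H, v ≠ q → rk (R.par v) < rk v
  left : ∀ u ∈ H, ∀ v ∈ H, Ar G rk u v → L.par v ≠ u → L.pos v u < L.pos u v
  right : ∀ u ∈ H, ∀ v ∈ H, Ar G rk u v → R.par v ≠ u → R.pos u v < R.pos v u
  rot : ∀ u ∈ H, u ≠ q → ∀ x y z, G.Adj u x → G.Adj u y → G.Adj u z → x ≠ y → y ≠ z → x ≠ z →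
    (Cyc (L.val u x) (L.val u y) (L.val u z) ↔ Cyc (R.val u x) (R.val u y) (R.val u z))
  rotq : ∀ x ∈ Q, ∀ y ∈ Q, G.Adj q x → G.Adj q y → (L.pos q x < L.pos q y ↔ R.pos q x < R.pos q y)

/-- the hub of the sector of `y` right of the dart `(y,u)` -/
def Sec (L : Ct V) (U : Set V) (y u : V) : Set V :=
  {x | x = y ∨ (x ∈ U ∧ L.pos y u < L.lo x ∧ L.hi x < L.hi y)}

/-- the darts at `y` right of the dart `(y,u)` -/
def SecQ (G : SimpleGraph V) (L : Ct V) (y u : V) : Set V :=
  {w | G.Adj y w ∧ w ≠ L.par y ∧ L.pos y u < L.pos y w}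

/-- CONCLUSION OF BLOCK M: a leftmost tree `L` on the set reachable from `q0`; a rightmost tree on the
same set; and for every sector to the right of an in-arc `(u,y)` a rightmost tree on the sector -/
def MTc (G : SimpleGraph V) (rk : V → ℕ) (q0 : V) : Prop :=
  ∃ L R0 : Ct V, NIok G rk {v | Re G rk q0 v} q0 Set.univ L R0 ∧
    ∀ y u, Re G rk q0 y → Re G rk q0 u → y ≠ q0 → Ar G rk u y → L.par y ≠ u →
      ∃ R : Ct V, NIok G rk (Sec L {v | Re G rk q0 v} y u) y (SecQ G L y u) L R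

/-- STATEMENT OF BLOCKS W + M (to be proved with `Pl G := Nonempty (Pool.M1.Rot G)`) -/
def MTStmt (Pl : ∀ V : Type, SimpleGraph V → Prop) : Prop :=
  ∀ (V : Type) [Finite V] (G : SimpleGraph V) (rk : V → ℕ) (q0 : V), Pl V G →
    Function.Injective rk → (∀ v, v ≠ q0 → rk q0 < rk v) → MTc G rk q0

end Pool.BD
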