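import Pool.Agent.H56.BD.StmtsT

/-!
# Module INS: the instance theorem with data
-/

set_option autoImplicit false

namespace Pool.BD

open Relation

namespace INS

universe u

/-! ### combinators -/

section comb

variable {ι : Type u} {X : ι → Type} {Dom Rel A : ∀ i, X i → X i → Prop}

theorem and' (h : Bd X Dom A) (h' : Bd X (fun i x y => Dom i x y ∧ A i x y) Rel) :
    Bd X Dom (fun i x y => A i x y ∧ Rel i x y) := by
  obtain ⟨K, φ, h⟩ := h
  obtain ⟨K', φ', h'⟩ := h'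
  refine ⟨K + K', fun b => φ (fun j => b (Fin.castAdd K' j)) && φ' (fun j => b (Fin.natAdd K j)),
    fun i => ?_⟩
  obtain ⟨L, hL, h⟩ := h i
  obtain ⟨L', hL', h'⟩ := h' i
  refine ⟨Fin.append L L', fun j => ?_, fun x y hne hxy => ?_⟩
  · refine Fin.addCases (fun j => ?_) (fun j => ?_) j
    · rw [Fin.append_left]; exact hL j
    · rw [Fin.append_right]; exact hL' j
  · have h1 : (fun j => Bits (Fin.append L L') x y (Fin.castAdd K' j)) = Bits L x y := by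
      funext j; simp [Bits]
    have h2 : (fun j => Bits (Fin.append L L') x y (Fin.natAdd K j)) = Bits L' x y := by
      funext j; simp [Bits]
    beta_reduce
    rw [h1, h2, Bool.and_eq_true, ← h x y hne hxy]
    constructor
    · rintro ⟨ha, hr⟩
      exact ⟨ha, (h' x y hne ⟨hxy, ha⟩).1 hr⟩
    · rintro ⟨ha, hr⟩
      exact ⟨ha, (h' x y hne ⟨hxy, ha⟩).2 hr⟩

theorem cases' (h : Bd X Dom A) (h1 : Bd X (fun i x y => Dom i x y ∧ A i x y) Rel)
    (h2 : Bd X (fun i x y => Dom i x y ∧ ¬ A i x y) Rel) : Bd X Dom Rel := by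
  refine ((and' h h1).or (and' h.not h2)).mono (Dom' := Dom) (fun i x y _ hd => ⟨hd, ?_⟩)
  tauto

end comb

/-! ### the tree `Dw` -/

section tree

variable {V : Type} {G : SimpleGraph V} {rk : V → ℕ} {q0 : V} {L : Ct V} {ρ : V → V} {t : V → ℤ}

theorem rtg_rank (hns : NS G rk q0 L ρ t) {x y : V} (h : ReflTransGen (Dw G rk q0 ρ) x y) :
    rk x ≤ rk y := by
  induction h with
  | refl => exact le_rfl
  | tail _ h2 ih =>
    obtain ⟨h3, h4, h5⟩ := h2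
    have := (hns.rU _ h3 h4).2.1
    rw [h5] at this
    omega

/-- a proper descendant is a descendant-or-equal of the parent -/
theorem tg_par {x y : V} (h : TransGen (Dw G rk q0 ρ) x y) :
    Re G rk q0 y ∧ y ≠ q0 ∧ ReflTransGen (Dw G rk q0 ρ) x (ρ y) := by
  rcases (TransGen.tail'_iff).1 h with ⟨z, h1, h2, h3, h4⟩
  exact ⟨h2, h3, h4 ▸ h1⟩

theorem par_tg {x y : V} (hy : Re G rk q0 y) (hq : y ≠ q0)
    (h : ReflTransGen (Dw G rk q0 ρ) x (ρ y)) : TransGen (Dw G rk q0 ρ) x y :=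
  TransGen.tail' h ⟨hy, hq, rfl⟩

theorem rtg_ne {x y : V} (h : ReflTransGen (Dw G rk q0 ρ) x y) (hne : x ≠ y) :
    TransGen (Dw G rk q0 ρ) x y := by
  rcases ReflTransGen.cases_head h with h1 | ⟨z, h1, h2⟩
  · exact absurd h1 hne
  · exact TransGen.head' h1 h2

end tree

/-! ### placements -/

open Classical in
/-- default place -/
noncomputable def base (i : FInst) (x : i.V) : i.V :=
  if Re i.G i.rk i.q0 x ∧ x ≠ i.q0 then i.ρ x else i.q0

open Classical in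
/-- default label -/
noncomputable def gbase (i : FInst) (x : i.V) : Fin 4 :=
  if Re i.G i.rk i.q0 x ∧ x ≠ i.q0 then 0 else 3

/-- placed at its active node of parity `e` -/
def Cd (i : FInst) (e : ℕ) (x y : i.V) : Prop :=
  x ≠ i.q0 ∧ i.act x = some y ∧ (i.SC y).length % 2 = e

open Classical in
/-- place in the words of parity `e` -/
noncomputable def zE (e : ℕ) (i : FInst) (x : i.V) : i.V :=
  if h : ∃ y, Cd i e x y then h.choose else base i x

open Classical in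
/-- label in the words of parity `e` -/
noncomputable def gE (e : ℕ) (i : FInst) (x : i.V) : Fin 4 :=
  if ∃ y, Cd i e x y then 2 else gbase i x

/-- source placed at `s` -/
def Cs (i : FInst) (x z : i.V) : Prop :=
  x ≠ i.q0 ∧ ¬ Re i.G i.rk i.q0 x ∧ i.s x = some z

open Classical in
/-- place in the first words -/
noncomputable def z1 (i : FInst) (x : i.V) : i.V :=
  if h : ∃ z, Cs i x z then h.choose else base i x

open Classical in
/-- label in the first words -/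
noncomputable def g1 (i : FInst) (x : i.V) : Fin 4 :=
  if ∃ z, Cs i x z then 0 else gbase i x

theorem Cd_unique {i : FInst} {e : ℕ} {x y y' : i.V} (h : Cd i e x y) (h' : Cd i e x y') :
    y = y' := by
  have := h.2.1.symm.trans h'.2.1
  exact Option.some.inj this

theorem Cs_unique {i : FInst} {x y y' : i.V} (h : Cs i x y) (h' : Cs i x y') :
    y = y' := by
  have := h.2.2.symm.trans h'.2.2
  exact Option.some.inj this

theorem zE_of {i : FInst} {e : ℕ} {x y : i.V} (h : Cd i e x y) : zE e i x = y ∧ gE e i x = 2 := by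
  have hex : ∃ y, Cd i e x y := ⟨y, h⟩
  constructor
  · unfold zE
    rw [dif_pos hex]
    exact Cd_unique hex.choose_spec h
  · unfold gE
    rw [if_pos hex]

theorem zE_not {i : FInst} {e : ℕ} {x : i.V} (h : ¬ ∃ y, Cd i e x y) :
    zE e i x = base i x ∧ gE e i x = gbase i x := by
  constructor
  · unfold zE
    rw [dif_neg h]
  · unfold gE
    rw [if_neg h]

theorem z1_of {i : FInst} {x y : i.V} (h : Cs i x y) : z1 i x = y ∧ g1 i x = 0 := by
  have hex : ∃ y, Cs i x y := ⟨y, h⟩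
  constructor
  · unfold z1
    rw [dif_pos hex]
    exact Cs_unique hex.choose_spec h
  · unfold g1
    rw [if_pos hex]

theorem z1_not {i : FInst} {x : i.V} (h : ¬ ∃ y, Cs i x y) :
    z1 i x = base i x ∧ g1 i x = gbase i x := by
  constructor
  · unfold z1
    rw [dif_neg h]
  · unfold g1
    rw [if_neg h]

theorem base_of {i : FInst} {x : i.V} (h : Re i.G i.rk i.q0 x) (h' : x ≠ i.q0) :
    base i x = i.ρ x ∧ gbase i x = 0 := by
  constructor
  · unfold base; rw [if_pos ⟨h, h'⟩]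
  · unfold gbase; rw [if_pos ⟨h, h'⟩]

theorem base_not {i : FInst} {x : i.V} (h : ¬ (Re i.G i.rk i.q0 x ∧ x ≠ i.q0)) :
    base i x = i.q0 ∧ gbase i x = 3 := by
  constructor
  · unfold base; rw [if_neg h]
  · unfold gbase; rw [if_neg h]

theorem base_re (i : FInst) (x : i.V) : Re i.G i.rk i.q0 (base i x) := by
  by_cases h : Re i.G i.rk i.q0 x ∧ x ≠ i.q0
  · rw [(base_of h.1 h.2).1]
    exact (i.nodes.ns.rU x h.1 h.2).1
  · rw [(base_not h).1]
    exact ReflTransGen.refl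

theorem gbase_ne (i : FInst) (x : i.V) : gbase i x ≠ 1 ∧ gbase i x ≠ 2 := by
  unfold gbase
  split_ifs <;> decide

theorem nd_re (i : FInst) {y : i.V} (h : Nd i.G i.rk i.q0 i.ρ y) : Re i.G i.rk i.q0 y := by
  rcases h with h | ⟨b, h1, h2, h3⟩
  · rw [h]; exact ReflTransGen.refl
  · rw [← h3]; exact (i.nodes.ns.rU b h1 h2).1

theorem zE_re (e : ℕ) (i : FInst) (x : i.V) : Re i.G i.rk i.q0 (zE e i x) := by
  by_cases h : ∃ y, Cd i e x y
  · obtain ⟨y, hy⟩ := h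
    rw [(zE_of hy).1]
    exact nd_re i ((i.red x hy.1).2.1 y hy.2.1).1.1
  · rw [(zE_not h).1]; exact base_re i x

theorem z1_re (i : FInst) (x : i.V) : Re i.G i.rk i.q0 (z1 i x) := by
  by_cases h : ∃ y, Cs i x y
  · obtain ⟨y, hy⟩ := h
    rw [(z1_of hy).1]
    exact nd_re i ((i.red x hy.1).2.2.1 hy.2.1 y hy.2.2).1
  · rw [(z1_not h).1]; exact base_re i x

theorem gE_ne (e : ℕ) (i : FInst) (x : i.V) : gE e i x ≠ 1 := by
  by_cases h : ∃ y, Cd i e x y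
  · obtain ⟨y, hy⟩ := h
    rw [(zE_of hy).2]; decide
  · rw [(zE_not h).2]; exact (gbase_ne i x).1

theorem g1_ne (i : FInst) (x : i.V) : g1 i x ≠ 1 ∧ g1 i x ≠ 2 := by
  by_cases h : ∃ y, Cs i x y
  · obtain ⟨y, hy⟩ := h
    rw [(z1_of hy).2]; decide
  · rw [(z1_not h).2]; exact gbase_ne i x

/-- the three families of words -/
noncomputable def wE (e : ℕ) (i : FInst) (x : i.V) : List (Fin 4 × i.V) :=
  i.SC (zE e i x) ++ [(gE e i x, x)]

/-- words with sources at `s` -/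
noncomputable def w1 (i : FInst) (x : i.V) : List (Fin 4 × i.V) :=
  i.SC (z1 i x) ++ [(g1 i x, x)]

/-! ### conditions -/

/-- `b` is inside the active node of `a` of parity `e` -/
def CE (e : ℕ) (i : FInst) (a b : i.V) : Prop :=
  ∃ y, Cd i e a y ∧ b ∈ SU i.G i.rk i.q0 i.L i.t y ∧ b ≠ y

/-- `b` is inside the node `s a` -/
def C1 (i : FInst) (a b : i.V) : Prop :=
  ∃ z, i.s a = some z ∧ b ∈ SU i.G i.rk i.q0 i.L i.t z ∧ b ≠ z

/-- the standing domain -/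
def D0 (i : FInst) (a b : i.V) : Prop := a ≠ i.q0 ∧ b ≠ i.q0 ∧ Re i.G i.rk i.q0 b

theorem mem_iff (i : FInst) {y b : i.V} (hy : Nd i.G i.rk i.q0 i.ρ y) :
    (b ∈ SU i.G i.rk i.q0 i.L i.t y ∧ b ≠ y) ↔ TransGen (Dw i.G i.rk i.q0 i.ρ) y b :=
  i.nodes.ns.anc y b hy

/-- position of `b` in the words of parity `e` below a node -/
theorem zE_b {e : ℕ} {i : FInst} {b y : i.V} (hb : Re i.G i.rk i.q0 b) (hq : b ≠ i.q0) :
    (zE e i b = i.ρ b ∧ gE e i b = 0) ∨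
    (∃ y', Cd i e b y' ∧ zE e i b = y' ∧ gE e i b = 2 ∧ Dw i.G i.rk i.q0 i.ρ (i.ρ b) y') := by
  by_cases h : ∃ y, Cd i e b y
  · obtain ⟨y', hy'⟩ := h
    right
    have h1 := (i.red b hy'.1).2.1 y' hy'.2.1
    obtain ⟨h2, h3⟩ := h1.2 hb
    exact ⟨y', hy', (zE_of hy').1, (zE_of hy').2, nd_re i h1.1.1, h2, h3⟩
  · left
    rw [(zE_not h).1, (zE_not h).2]
    exact base_of hb hq

/-- first difference in the words of parity `e` -/
theorem keyE (hWFD : WFD) (e0 : ℕ) (i : FInst) {a b : i.V} (hd : D0 i a b)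
    {p s s' : List (Fin 4 × i.V)} {e e' : Fin 4 × i.V} (hne : e ≠ e')
    (ha : wE e0 i a = p ++ e :: s) (hb : wE e0 i b = p ++ e' :: s') :
    (CE e0 i a b ↔ (e.1 = 2 ∧ (e'.1 = 0 ∨ e'.1 = 1))) ∧
    (CE e0 i a b → e.2 = a ∧ i.act a = some (i.ρ e'.2) ∧ Re i.G i.rk i.q0 e'.2 ∧ e'.2 ≠ i.q0 ∧
      ∀ y, i.act a = some y → Dw i.G i.rk i.q0 i.ρ y e'.2 ∧
        ReflTransGen (Dw i.G i.rk i.q0 i.ρ) e'.2 b) := by
  obtain ⟨ha0, hb0, hbU⟩ := hd
  have hns := i.nodes.ns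
  have hw := hWFD i.V i.G i.rk i.q0 i.L i.ρ i.t i.SC (zE e0 i) (gE e0 i) hns i.sc (zE_re e0 i)
    (gE_ne e0 i) a b p s s' e e' hne ha hb
  have hzb := zE_b (e := e0) (i := i) (b := b) (y := b) hbU hb0
  -- (=>) and the representative
  have fwd : CE e0 i a b → (e.1 = 2 ∧ (e'.1 = 0 ∨ e'.1 = 1)) ∧
      (e.2 = a ∧ i.act a = some (i.ρ e'.2) ∧ Re i.G i.rk i.q0 e'.2 ∧ e'.2 ≠ i.q0 ∧
        ∀ y, i.act a = some y → Dw i.G i.rk i.q0 i.ρ y e'.2 ∧
          ReflTransGen (Dw i.G i.rk i.q0 i.ρ) e'.2 b) := by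
    rintro ⟨y, hy, hbm⟩
    have hact := (i.red a hy.1).2.1 y hy.2.1
    have htg := (mem_iff i hact.1.1).1 hbm
    obtain ⟨_, _, hyρ⟩ := tg_par htg
    obtain ⟨hza, hga⟩ := zE_of hy
    have hyz : ReflTransGen (Dw i.G i.rk i.q0 i.ρ) y (zE e0 i b) := by
      rcases hzb with ⟨h1, _⟩ | ⟨y', h1, h2, h3, h4⟩
      · rw [h1]; exact hyρ
      · rw [h2]; exact hyρ.tail h4
    rw [hza, hga] at hw
    rcases hw with ⟨_, h2⟩ | ⟨h1, _, h2⟩
    · exact absurd hyz h2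
    · subst h1
      rcases h2 with ⟨h2, h3⟩ | ⟨h2, h3, h4⟩
      · -- b itself, placed at y
        rcases hzb with ⟨h5, h6⟩ | ⟨y', h5, h6, h7, h8⟩
        · rw [h6] at h2
          subst h2
          have hρ : i.ρ b = y := h5.symm.trans h3
          refine ⟨⟨rfl, Or.inl rfl⟩, rfl, ?_, hbU, hb0, ?_⟩
          · rw [hρ]; exact hy.2.1
          · intro y2 hy2
            have : y = y2 := Option.some.inj (hy.2.1.symm.trans hy2)
            subst this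
            exact ⟨⟨hbU, hb0, hρ⟩, ReflTransGen.refl⟩
        · exfalso
          have h9 : y' = y := h6.symm.trans h3
          subst h9
          have h10 := rtg_rank hns hyρ
          have h11 := (hns.rU _ h8.1 h8.2.1).2.1
          rw [h8.2.2] at h11
          omega
      · have hcb : ReflTransGen (Dw i.G i.rk i.q0 i.ρ) e'.2 b := by
          rcases hzb with ⟨h5, h6⟩ | ⟨y', h5, h6, h7, h8⟩
          · rw [h5] at h4
            exact h4.tail ⟨hbU, hb0, rfl⟩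
          · rw [h6] at h4
            by_cases hc : e'.2 = y'
            · exfalso
              rw [hc] at h3
              have h9 := i.sc.step y' h3.1 h3.2.1
              rw [h3.2.2] at h9
              have h10 := hy.2.2
              have h11 := h5.2.2
              rw [h9, List.length_append, List.length_singleton] at h11
              omega
            · have h9 := (tg_par (rtg_ne h4 hc)).2.2
              rw [h8.2.2] at h9
              exact h9.tail ⟨hbU, hb0, rfl⟩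
        refine ⟨⟨rfl, Or.inr h2⟩, rfl, ?_, h3.1, h3.2.1, ?_⟩
        · rw [h3.2.2]; exact hy.2.1
        · intro y2 hy2
          have : y = y2 := Option.some.inj (hy.2.1.symm.trans hy2)
          subst this
          exact ⟨h3, hcb⟩
  refine ⟨⟨fun h => (fwd h).1, ?_⟩, fun h => (fwd h).2⟩
  rintro ⟨h1, h2⟩
  rcases hw with ⟨h3, _⟩ | ⟨h3, h4, h5⟩
  · rw [h1] at h3; exact absurd h3 (by decide)
  · subst h3
    have hex : ∃ y, Cd i e0 a y := by
      by_contra hno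
      have := (zE_not hno).2
      simp only at h1
      rw [this] at h1
      exact (gbase_ne i a).2 h1
    obtain ⟨y, hy⟩ := hex
    have hact := (i.red a hy.1).2.1 y hy.2.1
    rw [(zE_of hy).1] at h4 h5
    refine ⟨y, hy, (mem_iff i hact.1.1).2 ?_⟩
    rcases h5 with ⟨h5, h6⟩ | ⟨h5, h6, h7⟩
    · rcases hzb with ⟨h8, h9⟩ | ⟨y', h8, h9, h10, h11⟩
      · exact TransGen.single ⟨hbU, hb0, h8.symm.trans h6⟩
      · exfalso
        subst h5
        simp only [h10] at h2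
        rcases h2 with h2 | h2 <;> exact absurd h2 (by decide)
    · have h12 : TransGen (Dw i.G i.rk i.q0 i.ρ) y (zE e0 i b) := TransGen.head' h6 h7
      rcases hzb with ⟨h8, h9⟩ | ⟨y', h8, h9, h10, h11⟩
      · rw [h8] at h12
        exact h12.tail ⟨hbU, hb0, rfl⟩
      · rw [h9] at h12
        have h13 := (tg_par h12).2.2
        rw [h11.2.2] at h13
        exact TransGen.tail' h13 ⟨hbU, hb0, rfl⟩

/-- first difference in the first words -/
theorem key1 (hWFD : WFD) (i : FInst) {a b : i.V} (hd : D0 i a b)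
    {p s s' : List (Fin 4 × i.V)} {e e' : Fin 4 × i.V} (hne : e ≠ e')
    (ha : w1 i a = p ++ e :: s) (hb : w1 i b = p ++ e' :: s') :
    (C1 i a b ↔ (e.1 = 0 ∧ (e'.1 = 0 ∨ e'.1 = 1))) ∧
    (C1 i a b → e.2 = a ∧ i.s a = some (i.ρ e'.2) ∧ Re i.G i.rk i.q0 e'.2 ∧ e'.2 ≠ i.q0 ∧
      ∀ y, i.s a = some y → Dw i.G i.rk i.q0 i.ρ y e'.2 ∧
        ReflTransGen (Dw i.G i.rk i.q0 i.ρ) e'.2 b) := by
  obtain ⟨ha0, hb0, hbU⟩ := hd
  have hns := i.nodes.ns
  have hw := hWFD i.V i.G i.rk i.q0 i.L i.ρ i.t i.SC (z1 i) (g1 i) hns i.sc (z1_re i)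
    (fun x => (g1_ne i x).1) a b p s s' e e' hne ha hb
  have hzb : z1 i b = i.ρ b ∧ g1 i b = 0 := by
    have : ¬ ∃ y, Cs i b y := fun ⟨y, hy⟩ => hy.2.1 hbU
    rw [(z1_not this).1, (z1_not this).2]
    exact base_of hbU hb0
  -- the place of a
  have hza : ∀ z, i.s a = some z → z1 i a = z ∧ g1 i a = 0 ∧ Nd i.G i.rk i.q0 i.ρ z := by
    intro z hz
    by_cases haU : Re i.G i.rk i.q0 a
    · have h1 := (i.red a ha0).1 haU
      have h2 : i.ρ a = z := Option.some.inj (h1.symm.trans hz)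
      have : ¬ ∃ y, Cs i a y := fun ⟨y, hy⟩ => hy.2.1 haU
      refine ⟨?_, ?_, ?_⟩
      · rw [(z1_not this).1, (base_of haU ha0).1, h2]
      · rw [(z1_not this).2, (base_of haU ha0).2]
      · exact Or.inr ⟨a, haU, ha0, h2⟩
    · have h1 : Cs i a z := ⟨ha0, haU, hz⟩
      exact ⟨(z1_of h1).1, (z1_of h1).2, ((i.red a ha0).2.2.1 haU z hz).1⟩
  have hzn : g1 i a = 0 → ∃ z, i.s a = some z := by
    intro hg
    by_cases h1 : ∃ y, Cs i a y
    · obtain ⟨y, hy⟩ := h1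
      exact ⟨y, hy.2.2⟩
    · rw [(z1_not h1).2] at hg
      by_cases haU : Re i.G i.rk i.q0 a
      · exact ⟨_, (i.red a ha0).1 haU⟩
      · rw [(base_not (fun h => haU h.1)).2] at hg
        exact absurd hg (by decide)
  rw [hzb.1, hzb.2] at hw
  refine ⟨⟨?_, ?_⟩, ?_⟩
  · rintro ⟨z, hz, hbm⟩
    obtain ⟨h1, h2, h3⟩ := hza z hz
    have htg := (mem_iff i h3).1 hbm
    obtain ⟨_, _, hyρ⟩ := tg_par htg
    rw [h1, h2] at hw
    rcases hw with ⟨_, h4⟩ | ⟨h4, _, h5⟩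
    · exact absurd hyρ h4
    · subst h4
      rcases h5 with ⟨h5, _⟩ | ⟨h5, _⟩
      · subst h5; exact ⟨rfl, Or.inl rfl⟩
      · exact ⟨rfl, Or.inr h5⟩
  · rintro ⟨h1, h2⟩
    rcases hw with ⟨h3, _⟩ | ⟨h3, h4, h5⟩
    · rw [h1] at h3; exact absurd h3 (by decide)
    · subst h3
      obtain ⟨z, hz⟩ := hzn h1
      obtain ⟨h6, h7, h8⟩ := hza z hz
      rw [h6] at h4
      exact ⟨z, hz, (mem_iff i h8).2 (par_tg hbU hb0 h4)⟩
  · rintro ⟨z, hz, hbm⟩
    obtain ⟨h1, h2, h3⟩ := hza z hz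
    have htg := (mem_iff i h3).1 hbm
    obtain ⟨_, _, hyρ⟩ := tg_par htg
    rw [h1, h2] at hw
    rcases hw with ⟨_, h4⟩ | ⟨h4, _, h5⟩
    · exact absurd hyρ h4
    · subst h4
      rcases h5 with ⟨h5, h6⟩ | ⟨h5, h6, h7⟩
      · subst h5
        refine ⟨rfl, by rw [h6]; exact hz, hbU, hb0, ?_⟩
        intro y hy
        have : z = y := Option.some.inj (hz.symm.trans hy)
        subst this
        exact ⟨⟨hbU, hb0, h6⟩, ReflTransGen.refl⟩
      · refine ⟨rfl, by rw [h6.2.2]; exact hz, h6.1, h6.2.1, ?_⟩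
        intro y hy
        have : z = y := Option.some.inj (hz.symm.trans hy)
        subst this
        exact ⟨h6, h7.tail ⟨hbU, hb0, rfl⟩⟩

/-! ### node instances inside an instance -/

/-- the node instance of a node -/
def ninst (i : FInst) (y : i.V) (hy : Nd i.G i.rk i.q0 i.ρ y) : NInst where
  V := i.V
  fin := i.fin
  G := i.G
  rk := i.rk
  H := SU i.G i.rk i.q0 i.L i.t y
  q := y
  Q := QU i.G i.q0 i.L i.t y
  L := i.L
  R := i.R y
  nh := i.nodes.nh y hy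

/-- two-copy relation between sources placed at `f a` and targets -/
theorem btn (hF : F2N) (f : ∀ i : FInst, i.V → Option i.V)
    (hf : ∀ (i : FInst) (a y : i.V), i.q0 ≠ a → f i a = some y →
      (f i a = i.act a ∨ (f i a = i.s a ∧ ¬ Re i.G i.rk i.q0 a))) :
    Bt (ι := FInst) (fun i => i.V) (fun i => i.V)
      (fun i a b => a ≠ i.q0 ∧ f i a = some (i.ρ b) ∧ Re i.G i.rk i.q0 b ∧ b ≠ i.q0)
      (fun i a b => Re i.G i.rk a b) := by
  classical
  obtain ⟨K, φ, h⟩ := hF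
  choose α β h using h
  refine ⟨K, φ, fun i => ⟨fun j a => match f i a with
    | some y => if hy : Nd i.G i.rk i.q0 i.ρ y then α (ninst i y hy) j a else 0
    | none => 0, fun j b => if hy : Nd i.G i.rk i.q0 i.ρ (i.ρ b) then
      β (ninst i (i.ρ b) hy) j b else 0, ?_⟩⟩
  rintro a b ⟨ha, hs, hb, hb0⟩
  have hnd : Nd i.G i.rk i.q0 i.ρ (i.ρ b) := Or.inr ⟨b, hb, hb0, rfl⟩
  have hact : Act i.G i.rk i.q0 i.L i.ρ i.t a (i.ρ b) := by
    rcases hf i a _ (Ne.symm ha) hs with h1 | ⟨h1, h2⟩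
    · exact ((i.red a ha).2.1 _ (h1 ▸ hs)).1
    · exact (i.red a ha).2.2.1 h2 _ (h1 ▸ hs)
  have hdom : (ninst i (i.ρ b) hnd).src a ∧ (ninst i (i.ρ b) hnd).sp b :=
    ⟨⟨hact.2.1, hact.2.2.1, by
      obtain ⟨v, h1, h2, h3⟩ := hact.2.2.2
      exact ⟨v, h1, h2, h3⟩⟩, i.nodes.ns.sp b hb hb0⟩
  have := h (ninst i (i.ρ b) hnd) a b hdom
  simp only [hs, dif_pos hnd]
  exact this

/-! ### entries -/

/-- entries, active sources -/
def DE2 (i : FInst) (e e' : Fin 4 × i.V) : Prop :=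
  e.1 = 2 ∧ (e'.1 = 0 ∨ e'.1 = 1) ∧ e.2 ≠ i.q0 ∧ i.act e.2 = some (i.ρ e'.2) ∧
    Re i.G i.rk i.q0 e'.2 ∧ e'.2 ≠ i.q0

theorem fin4 (i : FInst) : Finite (Fin 4 × i.V) := by
  have := i.fin
  infer_instance

theorem bdE2 (hF : F2N) : Bd (ι := FInst) (fun i => Fin 4 × i.V) DE2
    (fun i e e' => Re i.G i.rk e.2 e'.2) := by
  have h := btn hF (fun i => i.act) (fun i a y _ _ => Or.inl rfl)
  refine h.toBd fin4 (fun i e => e.1 = 2) (fun i e => e.1 = 0 ∨ e.1 = 1) ?_ (fun i e => e.2)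
    (fun i e => e.2) ?_
  · intro i e h1 h2
    rw [h1] at h2
    rcases h2 with h2 | h2 <;> exact absurd h2 (by decide)
  · rintro i e e' _ ⟨h1, h2, h3, h4, h5, h6⟩
    exact ⟨h1, h2, ⟨h3, h4, h5, h6⟩, Iff.rfl⟩

/-- entries, sources outside `U` at `s` -/
def DEb (i : FInst) (e e' : Fin 4 × i.V) : Prop :=
  ¬ Re i.G i.rk i.q0 e.2 ∧ e.2 ≠ i.q0 ∧ i.s e.2 = some (i.ρ e'.2) ∧
    Re i.G i.rk i.q0 e'.2 ∧ e'.2 ≠ i.q0

open Classical in
theorem bdEb (hF : F2N) : Bd (ι := FInst) (fun i => Fin 4 × i.V) DEb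
    (fun i e e' => Re i.G i.rk e.2 e'.2) := by
  have h := btn hF (fun i a => if Re i.G i.rk i.q0 a then none else i.s a) (by
    intro i a y _ hy
    by_cases h1 : Re i.G i.rk i.q0 a
    · rw [if_pos h1] at hy; exact absurd hy (by simp)
    · right; exact ⟨by rw [if_neg h1], h1⟩)
  refine h.toBd fin4 (fun i e => ¬ Re i.G i.rk i.q0 e.2) (fun i e => Re i.G i.rk i.q0 e.2) ?_
    (fun i e => e.2) (fun i e => e.2) ?_
  · intro i e h1 h2
    exact h1 h2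
  · rintro i e e' _ ⟨h1, h2, h3, h4, h5⟩
    exact ⟨h1, h4, ⟨h2, by rw [if_neg h1]; exact h3, h4, h5⟩, Iff.rfl⟩

/-- entries, sources in `U` -/
def DEa (i : FInst) (e e' : Fin 4 × i.V) : Prop :=
  e.1 = 0 ∧ (e'.1 = 0 ∨ e'.1 = 1) ∧ Re i.G i.rk i.q0 e.2 ∧ e.2 ≠ i.q0 ∧
    Re i.G i.rk i.q0 e'.2 ∧ e'.2 ≠ i.q0 ∧ i.ρ e.2 = i.ρ e'.2

theorem bdEa (hF : F1N) : Bd (ι := FInst) (fun i => Fin 4 × i.V) DEa
    (fun i e e' => Re i.G i.rk e.2 e'.2) := by
  classical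
  choose lam hlam using hF
  let lm : ∀ i : FInst, i.V → ℤ := fun i x =>
    if hy : Nd i.G i.rk i.q0 i.ρ (i.ρ x) then lam (ninst i (i.ρ x) hy) x else 0
  let k1 : ∀ i : FInst, Fin 4 × i.V → ℤ ×ₗ Fin 4 := fun i e => toLex (- i.L.hi e.2, e.1)
  let k2 : ∀ i : FInst, Fin 4 × i.V → ℤ ×ₗ Fin 4 := fun i e => toLex ((i.R (i.ρ e.2)).lo e.2, e.1)
  let k3 : ∀ i : FInst, Fin 4 × i.V → ℤ ×ₗ (ℤ ×ₗ Fin 4) := fun i e =>
    toLex (lm i e.2, toLex (- i.L.hi e.2, e.1))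
  -- facts
  have facts : ∀ (i : FInst) (e e' : Fin 4 × i.V), DEa i e e' →
      Nd i.G i.rk i.q0 i.ρ (i.ρ e.2) ∧
      e.2 ∈ SU i.G i.rk i.q0 i.L i.t (i.ρ e.2) ∧ e'.2 ∈ SU i.G i.rk i.q0 i.L i.t (i.ρ e.2) := by
    rintro i e e' ⟨h1, h2, h3, h4, h5, h6, h7⟩
    refine ⟨Or.inr ⟨e.2, h3, h4, rfl⟩, (i.nodes.ns.rU _ h3 h4).2.2, ?_⟩
    rw [h7]; exact (i.nodes.ns.rU _ h5 h6).2.2
  have hhi : ∀ (i : FInst) (e e' : Fin 4 × i.V), DEa i e e' → i.L.hi e.2 = i.L.hi e'.2 →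
      e.2 = e'.2 := by
    intro i e e' hd he
    obtain ⟨h1, h2, h3⟩ := facts i e e' hd
    have hn := (i.nodes.nh _ h1).ok
    exact hn.isL.hi_inj hn.parL h2 h3 he
  have hlo : ∀ (i : FInst) (e e' : Fin 4 × i.V), DEa i e e' →
      (i.R (i.ρ e.2)).lo e.2 = (i.R (i.ρ e'.2)).lo e'.2 → e.2 = e'.2 := by
    intro i e e' hd he
    obtain ⟨h1, h2, h3⟩ := facts i e e' hd
    have hn := (i.nodes.nh _ h1).ok
    rw [← hd.2.2.2.2.2.2] at he
    exact hn.isR.lo_inj hn.parR h2 h3 he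
  have e1 : Bd (ι := FInst) (fun i => Fin 4 × i.V) DEa (fun i x y => k1 i x < k1 i y) :=
    Bd.key fin4 k1 (fun i e e' hne hd h => hne (by
      have h1 := Prod.mk.inj (toLex.injective h)
      exact Prod.ext h1.2 (hhi i e e' hd (by have := h1.1; omega))))
  have e2 : Bd (ι := FInst) (fun i => Fin 4 × i.V) DEa (fun i x y => k2 i x < k2 i y) :=
    Bd.key fin4 k2 (fun i e e' hne hd h => hne (by
      have h1 := Prod.mk.inj (toLex.injective h)
      exact Prod.ext h1.2 (hlo i e e' hd h1.1)))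
  have e3 : Bd (ι := FInst) (fun i => Fin 4 × i.V) DEa (fun i x y => k3 i x < k3 i y) :=
    Bd.key fin4 k3 (fun i e e' hne hd h => hne (by
      have h1 := Prod.mk.inj (toLex.injective h)
      have h2 := Prod.mk.inj (toLex.injective h1.2)
      exact Prod.ext h2.2 (hhi i e e' hd (by have := h2.1; omega))))
  refine (e1.and (e2.and e3)).mono (Dom' := DEa) (fun i e e' hne hd => ⟨hd, ?_⟩)
  obtain ⟨h1, h2, h3⟩ := facts i e e' hd
  obtain ⟨d1, d2, d3, d4, d5, d6, d7⟩ := hd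
  have hd : DEa i e e' := ⟨d1, d2, d3, d4, d5, d6, d7⟩
  simp only [k1, k2, k3, Prod.Lex.toLex_lt_toLex]
  by_cases hee : e.2 = e'.2
  · -- same vertex: everything is true
    have htag : e.1 < e'.1 := by
      rw [d1]
      rcases d2 with d2 | d2
      · exact absurd (Prod.ext (d1.trans d2.symm) hee) hne
      · rw [d2]; decide
    rw [hee]
    simp only [lt_irrefl, false_or, true_and, htag, and_self, iff_true]
    exact ReflTransGen.refl
  · have hsp : (ninst i (i.ρ e.2) h1).sp e'.2 := by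
      have := i.nodes.ns.sp e'.2 d5 d6
      rw [← d7] at this
      exact this
    have hne1 : e.2 ≠ i.ρ e.2 := by
      intro h
      have := (i.nodes.ns.rU _ d3 d4).2.1
      rw [← h] at this
      omega
    have key := hlam (ninst i (i.ρ e.2) h1) e.2 h2 hne1 e'.2 hsp hee
    have hhi' : i.L.hi e.2 ≠ i.L.hi e'.2 := fun h => hee (hhi i e e' hd h)
    have hlo' : (i.R (i.ρ e.2)).lo e.2 ≠ (i.R (i.ρ e'.2)).lo e'.2 := fun h => hee (hlo i e e' hd h)
    have hl1 : lm i e.2 = lam (ninst i (i.ρ e.2) h1) e.2 := by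
      simp only [lm, dif_pos h1]
    have hl2 : lm i e'.2 = lam (ninst i (i.ρ e.2) h1) e'.2 := by
      have aux : ∀ y (hy : Nd i.G i.rk i.q0 i.ρ y), i.ρ e'.2 = y →
          lm i e'.2 = lam (ninst i y hy) e'.2 := by
        intro y hy he
        subst he
        simp only [lm, dif_pos hy]
      exact aux _ h1 d7.symm
    rw [hl1, hl2]
    have key' : Re i.G i.rk e.2 e'.2 ↔ i.L.hi e'.2 < i.L.hi e.2 ∧
        (i.R (i.ρ e.2)).lo e.2 < (i.R (i.ρ e.2)).lo e'.2 ∧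
        lam (ninst i (i.ρ e.2) h1) e.2 ≤ lam (ninst i (i.ρ e.2) h1) e'.2 := key
    rw [key']
    rw [← d7] at hlo' ⊢
    constructor
    · rintro ⟨p1, p2, p3⟩
      refine ⟨Or.inl (by omega), Or.inl p2, ?_⟩
      rcases lt_or_eq_of_le p3 with p4 | p4
      · exact Or.inl p4
      · exact Or.inr ⟨p4, Or.inl (by omega)⟩
    · rintro ⟨p1, p2, p3⟩
      refine ⟨?_, ?_, ?_⟩
      · rcases p1 with p1 | p1
        · omega
        · exact absurd (by omega : i.L.hi e.2 = i.L.hi e'.2) hhi'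
      · rcases p2 with p2 | p2
        · exact p2
        · exact absurd p2.1 hlo'
      · rcases p3 with p3 | p3
        · exact p3.le
        · exact p3.1.le

/-! ### assembly -/

theorem wE_diff (hW : WPF) (e : ℕ) : ∀ (i : FInst) (x y : i.V), x ≠ y →
    ∃ (p s s' : List (Fin 4 × i.V)) (e1 e2 : Fin 4 × i.V), e1 ≠ e2 ∧ wE e i x = p ++ e1 :: s ∧
      wE e i y = p ++ e2 :: s' := fun i =>
  hW i.V i.G i.rk i.q0 i.L i.ρ i.t i.SC (zE e i) (gE e i) i.nodes.ns i.sc (zE_re e i) (gE_ne e i)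

theorem w1_diff (hW : WPF) : ∀ (i : FInst) (x y : i.V), x ≠ y →
    ∃ (p s s' : List (Fin 4 × i.V)) (e1 e2 : Fin 4 × i.V), e1 ≠ e2 ∧ w1 i x = p ++ e1 :: s ∧
      w1 i y = p ++ e2 :: s' := fun i =>
  hW i.V i.G i.rk i.q0 i.L i.ρ i.t i.SC (z1 i) (g1 i) i.nodes.ns i.sc (z1_re i)
    (fun x => (g1_ne i x).1)

theorem bdCE (hW : WPF) (hD : WFD) (e : ℕ) : Bd (ι := FInst) (fun i => i.V) D0 (CE e) := by
  refine Bd.lex (E := fun i => Fin 4 × i.V) (DomE := fun _ _ _ => True)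
    (RelE := fun i x y => x.1 = 2 ∧ (y.1 = 0 ∨ y.1 = 1)) (fun i => i.fin) (wE e) ?_ (wE_diff hW e) ?_
  · exact (Bd.lab fin4 (fun i x => x.1 = 2)).and (Bd.lab' fin4 (fun i y => y.1 = 0 ∨ y.1 = 1))
  · intro i x y p s s' e1 e2 hne hx hy hd
    exact ⟨trivial, (keyE hD e i hd hne hx hy).1⟩

theorem bdC1 (hW : WPF) (hD : WFD) : Bd (ι := FInst) (fun i => i.V) D0 C1 := by
  refine Bd.lex (E := fun i => Fin 4 × i.V) (DomE := fun _ _ _ => True)
    (RelE := fun i x y => x.1 = 0 ∧ (y.1 = 0 ∨ y.1 = 1)) (fun i => i.fin) w1 ?_ (w1_diff hW) ?_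
  · exact (Bd.lab fin4 (fun i x => x.1 = 0)).and (Bd.lab' fin4 (fun i y => y.1 = 0 ∨ y.1 = 1))
  · intro i x y p s s' e1 e2 hne hx hy hd
    exact ⟨trivial, (key1 hD i hd hne hx hy).1⟩

/-- reachability inside the active node -/
theorem bdRE (hF : F2N) (hW : WPF) (hD : WFD) (e : ℕ) :
    Bd (ι := FInst) (fun i => i.V) (fun i x y => (D0 i x y ∧ x ≠ y) ∧ CE e i x y)
      (fun i a b => Re i.G i.rk a b) := by
  refine Bd.lex (E := fun i => Fin 4 × i.V) (fun i => i.fin) (wE e) (bdE2 hF) (wE_diff hW e) ?_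
  rintro i a b p s s' e1 e2 hne hx hy ⟨⟨hd, hab⟩, hc⟩
  have hk := keyE hD e i hd hne hx hy
  obtain ⟨h1, h2⟩ := hk.1.1 hc
  obtain ⟨h3, h4, h5, h6, h7⟩ := hk.2 hc
  obtain ⟨y, hy1, hy2, hy3⟩ := hc
  refine ⟨⟨h1, h2, by rw [h3]; exact hd.1, by rw [h3]; exact h4, h5, h6⟩, ?_⟩
  beta_reduce
  rw [h3]
  exact ((i.red a hd.1).2.2.2 b hd.2.2 hd.2.1 (Ne.symm hab)).1 y hy1.2.1 hy2 hy3 e2.2
    (h7 y hy1.2.1).1 (h7 y hy1.2.1).2

theorem bdR1b (hF : F2N) (hW : WPF) (hD : WFD) :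
    Bd (ι := FInst) (fun i => i.V) (fun i x y => (((((D0 i x y ∧ x ≠ y) ∧ ¬ CE 0 i x y) ∧
      ¬ CE 1 i x y) ∧ C1 i x y) ∧ ¬ Re i.G i.rk i.q0 x))
      (fun i a b => Re i.G i.rk a b) := by
  refine Bd.lex (E := fun i => Fin 4 × i.V) (fun i => i.fin) w1 (bdEb hF) (w1_diff hW) ?_
  rintro i a b p s s' e1 e2 hne hx hy ⟨⟨⟨⟨⟨hd, hab⟩, hc0⟩, hc1⟩, hc⟩, haU⟩
  have hk := key1 hD i hd hne hx hy
  obtain ⟨h1, h2⟩ := hk.1.1 hc
  obtain ⟨h3, h4, h5, h6, h7⟩ := hk.2 hc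
  obtain ⟨z, hz1, hz2, hz3⟩ := hc
  refine ⟨⟨by rw [h3]; exact haU, by rw [h3]; exact hd.1, by rw [h3]; exact h4, h5, h6⟩, ?_⟩
  beta_reduce
  rw [h3]
  have hno : ¬ ∃ y, i.act a = some y ∧ b ∈ SU i.G i.rk i.q0 i.L i.t y ∧ b ≠ y := by
    rintro ⟨y, hy1, hy2, hy3⟩
    rcases Nat.mod_two_eq_zero_or_one (i.SC y).length with h | h
    · exact hc0 ⟨y, ⟨hd.1, hy1, h⟩, hy2, hy3⟩
    · exact hc1 ⟨y, ⟨hd.1, hy1, h⟩, hy2, hy3⟩
  exact (((i.red a hd.1).2.2.2 b hd.2.2 hd.2.1 (Ne.symm hab)).2 hno).1 z hz1 hz2 hz3 e2.2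
    (h7 z hz1).1 (h7 z hz1).2

theorem bdR1a (hF : F1N) (hW : WPF) (hD : WFD) :
    Bd (ι := FInst) (fun i => i.V) (fun i x y => (((((D0 i x y ∧ x ≠ y) ∧ ¬ CE 0 i x y) ∧
      ¬ CE 1 i x y) ∧ C1 i x y) ∧ Re i.G i.rk i.q0 x))
      (fun i a b => Re i.G i.rk a b) := by
  refine Bd.lex (E := fun i => Fin 4 × i.V) (fun i => i.fin) w1 (bdEa hF) (w1_diff hW) ?_
  rintro i a b p s s' e1 e2 hne hx hy ⟨⟨⟨⟨⟨hd, hab⟩, hc0⟩, hc1⟩, hc⟩, haU⟩
  have hk := key1 hD i hd hne hx hy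
  obtain ⟨h1, h2⟩ := hk.1.1 hc
  obtain ⟨h3, h4, h5, h6, h7⟩ := hk.2 hc
  obtain ⟨z, hz1, hz2, hz3⟩ := hc
  have hρ : i.ρ a = i.ρ e2.2 := by
    have := (i.red a hd.1).1 haU
    exact Option.some.inj (this.symm.trans h4)
  refine ⟨⟨h1, h2, by rw [h3]; exact haU, by rw [h3]; exact hd.1, h5, h6, by rw [h3]; exact hρ⟩, ?_⟩
  beta_reduce
  rw [h3]
  have hno : ¬ ∃ y, i.act a = some y ∧ b ∈ SU i.G i.rk i.q0 i.L i.t y ∧ b ≠ y := by
    rintro ⟨y, hy1, hy2, hy3⟩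
    rcases Nat.mod_two_eq_zero_or_one (i.SC y).length with h | h
    · exact hc0 ⟨y, ⟨hd.1, hy1, h⟩, hy2, hy3⟩
    · exact hc1 ⟨y, ⟨hd.1, hy1, h⟩, hy2, hy3⟩
  exact (((i.red a hd.1).2.2.2 b hd.2.2 hd.2.1 (Ne.symm hab)).2 hno).1 z hz1 hz2 hz3 e2.2
    (h7 z hz1).1 (h7 z hz1).2

end INS

open INS in
theorem ins (h1 : F2N) (h2 : F1N) (h3 : WPF) (h4 : WFD) : INS := by
  have hC0 := bdCE h3 h4 0
  have hC1 := bdCE h3 h4 1
  have hC := bdC1 h3 h4
  have key : Bd (ι := FInst) (fun i => i.V) (fun i x y => D0 i x y ∧ x ≠ y)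
      (fun i a b => Re i.G i.rk a b) := by
    refine cases' (A := fun i x y => CE 0 i x y) ?_ (bdRE h1 h3 h4 0) ?_
    · exact hC0.mono (fun i x y _ h => ⟨h.1, Iff.rfl⟩)
    refine cases' (A := fun i x y => CE 1 i x y) ?_ ?_ ?_
    · exact hC1.mono (fun i x y _ h => ⟨h.1.1, Iff.rfl⟩)
    · exact (bdRE h1 h3 h4 1).mono (fun i x y _ h => ⟨⟨h.1.1, h.2⟩, Iff.rfl⟩)
    refine cases' (A := fun i x y => C1 i x y) ?_ ?_ ?_
    · exact hC.mono (fun i x y _ h => ⟨h.1.1.1, Iff.rfl⟩)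
    · refine cases' (A := fun i x y => Re i.G i.rk i.q0 x) ?_ (bdR1a h2 h3 h4) (bdR1b h1 h3 h4)
      exact Bd.lab (fun i => i.fin) _
    · refine (Bd.const False).mono (fun i x y _ h => ⟨h, ?_⟩)
      obtain ⟨⟨⟨⟨hd, hab⟩, hc0⟩, hc1⟩, hc⟩ := h
      have hno : ¬ ∃ y', i.act x = some y' ∧ y ∈ SU i.G i.rk i.q0 i.L i.t y' ∧ y ≠ y' := by
        rintro ⟨y', hy1, hy2, hy3⟩
        rcases Nat.mod_two_eq_zero_or_one (i.SC y').length with h | h
        · exact hc0 ⟨y', ⟨hd.1, hy1, h⟩, hy2, hy3⟩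
        · exact hc1 ⟨y', ⟨hd.1, hy1, h⟩, hy2, hy3⟩
      have := (((i.red x hd.1).2.2.2 y hd.2.2 hd.2.1 (Ne.symm hab)).2 hno).2 hc
      exact iff_false_intro this
  exact key.mono (fun i x y hne h => ⟨⟨h, hne⟩, Iff.rfl⟩)

end Pool.BD
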