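import Pool.Agent.H5.BD.RCH
import Pool.Agent.H5.BD.RCL
import Pool.Agent.H5.BD.K0
import Pool.Agent.H32.BD.W1
import Pool.Agent.H32.BD.K2
import Pool.Agent.H32.BD.F1s
import Pool.Agent.H70.BD.W3
import Pool.Agent.H70.BD.WAN
import Pool.Agent.H70.BD.K1
import Pool.Agent.H1.BD.WEQ
import Pool.Agent.H1.BD.NSE
import Pool.Agent.H65.BD.WLA
import Pool.Agent.H65.BD.K4
import Pool.Agent.H65.BD.NOD
import Pool.Agent.H65.BD.WFD
import Pool.Agent.H15.BD.F2c
import Pool.Agent.H58.BD.F2s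
import Pool.Agent.H58.BD.RED
import Pool.Agent.H8.BD.STA
import Pool.Agent.H8.BD.UPN
import Pool.Agent.H22.BD.AC2
import Pool.Agent.H22.BD.F2N
import Pool.Agent.H59.BD.F1N
import Pool.Agent.H59.BD.INSP
import Pool.Agent.H59.BD.SCE
import Pool.Agent.H59.BD.WPF
import Pool.Agent.H95.BD.MPL
import Pool.Agent.H95.BD.MMI
import Pool.Agent.H56.BD.INS

/-!
# Assembly of the blocks N, F, T
-/

set_option autoImplicit false

namespace Pool.BD

/-- everything of N, F, T; inputs: block M and block S -/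
theorem inspAll (hW2 : W2) (hAC1 : AC1) (Pl : ∀ V : Type, SimpleGraph V → Prop)
    (hMT : MTStmt Pl) (hII : IITStmt) : INSP Pl := by
  have hRCH := rch
  have hRCL := rcl hRCH
  have hK0 := k0 hRCH
  have hW1 := w1
  have hW3 := w3 hW1 hW2 hK0
  have hWEQ := weq hW1 hW3
  have hWAN := wan hW3 hWEQ
  have hWLA := wla hW1 hW3 hWEQ
  have hK4 := k4 hW3 hWEQ hWAN hWLA
  have hK1 := k1 hWEQ hWAN hWLA hW3
  have hK2 := k2 hW1 hW3 hWEQ hWAN hWLA
  have hF2c := f2c hRCL hK0 hK1 hK2 hK4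
  have hF2s := f2s hRCL hK0 hK1 hK2
  have hF1s := f1s hRCL hK0 hK1 hK2
  have hUPN := upn
  have hNOD := nod (nse hUPN) hUPN
  have hRED := red hAC1 (ac2 hAC1)
  have hF2N := f2n hF2c hF2s (mpl hII sta) (mmi hII sta)
  have hF1N := f1N hF1s hRCH
  exact insp Pl (ins hF2N hF1N wpf wfd) hNOD hRED sce hMT

end Pool.BD
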