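import Pool.Agent.H56.BD.AllN
import Pool.Agent.H57.BD.AllS
import Pool.Agent.H42.M1.NcCC
import Pool.Agent.H96.W.RotOf
import Pool.Agent.H13.BD.ZU
import Pool.Agent.H13.BD.ZE
import Pool.Agent.H13.BD.ZL
import Pool.Agent.H13.BD.Z1
import Pool.Agent.H13.BD.Z3
import Pool.Agent.H13.BD.Z4
import Pool.Agent.H17.BD.ZS
import Pool.Agent.H17.BD.Z2
import Pool.Agent.H42.BD.ZF
import Pool.Agent.H42.BD.ZR
import Pool.Agent.H42.BD.ZLR
import Pool.Agent.H42.BD.ZLD

/-!
# Assembly of all blocks: planar cover graphs have bounded Boolean dimension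
-/

set_option autoImplicit false

namespace Pool.BD

/-- posets with planar cover graphs, uniform version: one Boolean function for all posets -/
theorem z3All (hW2 : W2) (hAC1 : AC1) : Z3Stmt := by
  have hI : INSP (fun _ G => Nonempty (Pool.M1.Rot G)) :=
    inspAll hW2 hAC1 _ Pool.M1.mtStmt iitAll
  have hPl : ∀ (V : Type) [Finite V] (G : SimpleGraph V), Pool.WG.Fr G →
      Nonempty (Pool.M1.Rot G) := fun V _ G h => Pool.H96.W.wagner G h
  exact z3 (z1 zu zf zr hI hPl) (z2 zu zs zf zr hI hPl) ze zx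

theorem z4All (hW2 : W2) (hAC1 : AC1) : Z4Stmt := z4 (z3All hW2 hAC1) (zl zlr zld)

end Pool.BD
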