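import Pool.Agent.H56.BD.Defs

/-!
# Proved library for blocks M and N: laminar blocks, ancestors, mirror
-/

set_option autoImplicit false

namespace Pool.BD

open Relation

variable {V : Type}

/-- `x` is an ancestor of `y` or equal to `y` -/
def Anc (H : Set V) (q : V) (c : Ct V) (x y : V) : Prop :=
  ReflTransGen (fun a b => b ∈ H ∧ b ≠ q ∧ c.par b = a) x y

section lam

variable {G : SimpleGraph V} {rk : V → ℕ} {H : Set V} {q : V} {Q : Set V} {c : Ct V}

theorem Anc.rank (hr : ∀ v ∈ H, v ≠ q → rk (c.par v) < rk v) {x y : V} (h : Anc H q c x y) :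
    rk x ≤ rk y := by
  induction h with
  | refl => exact le_rfl
  | tail _ h2 ih =>
    obtain ⟨hb, hq, he⟩ := h2
    have := hr _ hb hq
    rw [he] at this
    omega

theorem Anc.rank_lt (hr : ∀ v ∈ H, v ≠ q → rk (c.par v) < rk v) {x y : V} (h : Anc H q c x y)
    (hne : x ≠ y) : rk x < rk y := by
  rcases ReflTransGen.cases_tail h with h1 | ⟨z, h1, hb, hq, he⟩
  · exact absurd h1.symm hne
  · have h2 := Anc.rank hr h1
    have := hr _ hb hq
    rw [he] at this
    omega

theorem Anc.mem (hq : q ∈ H) (hp : ∀ v ∈ H, v ≠ q → c.par v ∈ H) {x y : V} (h : Anc H q c x y)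
    (hy : y ∈ H) : x ∈ H := by
  induction h with
  | refl => exact hy
  | tail _ h2 ih =>
    obtain ⟨hb, hq, he⟩ := h2
    apply ih
    rw [← he]
    exact hp _ hb hq

theorem Anc.of_par {x y : V} (h : Anc H q c x (c.par y)) (hy : y ∈ H) (hq : y ≠ q) :
    Anc H q c x y := ReflTransGen.tail h ⟨hy, hq, rfl⟩

/-- the child towards `y` -/
theorem Anc.head {x y : V} (h : Anc H q c x y) (hne : x ≠ y) :
    ∃ z, z ∈ H ∧ z ≠ q ∧ c.par z = x ∧ Anc H q c z y := by
  rcases ReflTransGen.cases_head h with h1 | ⟨z, ⟨h1, h2, h3⟩, h4⟩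
  · exact absurd h1 hne
  · exact ⟨z, h1, h2, h3, h4⟩

theorem Anc.reach (h : IsCt G H q Q c) (hr : ∀ v ∈ H, v ≠ q → rk (c.par v) < rk v) {x y : V}
    (ha : Anc H q c x y) : Re G rk x y := by
  induction ha with
  | refl => exact ReflTransGen.refl
  | tail _ h2 ih =>
    obtain ⟨hb, hq, he⟩ := h2
    refine ReflTransGen.tail ih ?_
    have h3 := h.par _ hb hq
    have h4 := hr _ hb hq
    rw [he] at h3 h4
    exact ⟨h3.2, h4⟩

theorem Re.rank {x y : V} (h : Re G rk x y) : rk x ≤ rk y := by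
  induction h with
  | refl => exact le_rfl
  | tail _ h2 ih => exact ih.trans h2.2.le

theorem Re.rank_lt {x y : V} (h : Re G rk x y) (hne : x ≠ y) : rk x < rk y := by
  rcases ReflTransGen.cases_tail h with h1 | ⟨z, h1, h2⟩
  · exact absurd h1.symm hne
  · exact lt_of_le_of_lt (Re.rank h1) h2.2

theorem IsCt.root_anc (h : IsCt G H q Q c) (hr : ∀ v ∈ H, v ≠ q → rk (c.par v) < rk v) :
    ∀ y ∈ H, Anc H q c q y := by
  have key : ∀ n, ∀ y ∈ H, rk y = n → Anc H q c q y := by
    intro n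
    induction n using Nat.strong_induction_on with
    | _ n ih =>
      intro y hy hn
      by_cases hq : y = q
      · subst hq; exact ReflTransGen.refl
      · have := ih (rk (c.par y)) (by have := hr y hy hq; omega) (c.par y) (h.par y hy hq).1 rfl
        exact Anc.of_par this hy hq
  exact fun y hy => key _ y hy rfl

theorem IsCt.anc_block (h : IsCt G H q Q c) {x y : V}
    (ha : Anc H q c x y) (hne : x ≠ y) : c.lo x < c.lo y ∧ c.hi y < c.hi x := by
  have key : c.lo x ≤ c.lo y ∧ c.hi y ≤ c.hi x ∧ (x = y ∨ (c.lo x < c.lo y ∧ c.hi y < c.hi x)) := by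
    induction ha with
    | refl => exact ⟨le_rfl, le_rfl, Or.inl rfl⟩
    | @tail b c' h1 h2 ih =>
      obtain ⟨hb, hq, he⟩ := h2
      have h3 := h.ch _ hb hq
      rw [he] at h3
      by_cases hxb : x = b
      · subst hxb
        exact ⟨h3.1.le, h3.2.2.2.le, Or.inr ⟨h3.1, h3.2.2.2⟩⟩
      · have h4 := ih hxb
        exact ⟨by omega, by omega, Or.inr ⟨by omega, by omega⟩⟩
  rcases key.2.2 with h1 | h1
  · exact absurd h1 hne
  · exact h1

theorem IsCt.anc_le (h : IsCt G H q Q c) {x y : V}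
    (ha : Anc H q c x y) : c.lo x ≤ c.lo y ∧ c.hi y ≤ c.hi x := by
  by_cases hne : x = y
  · subst hne; exact ⟨le_rfl, le_rfl⟩
  · have := h.anc_block ha hne
    exact ⟨this.1.le, this.2.le⟩

theorem IsCt.ch_dn (h : IsCt G H q Q c) (hr : ∀ v ∈ H, v ≠ q → rk (c.par v) < rk v) {w : V}
    (hw : w ∈ H) (hq : w ≠ q) : Dn G H q Q c (c.par w) w := by
  have h1 := h.par w hw hq
  refine ⟨h1.1, h1.2, fun he => h.QH w hw (he ▸ h1.2), fun hne he => ?_⟩
  have h2 := hr w hw hq
  have h3 := hr (c.par w) h1.1 hne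
  rw [← he] at h3
  omega

/-- two children of the same vertex have disjoint blocks -/
theorem IsCt.sib (h : IsCt G H q Q c) (hr : ∀ v ∈ H, v ≠ q → rk (c.par v) < rk v) {x y : V}
    (hx : x ∈ H) (hxq : x ≠ q) (hy : y ∈ H) (hyq : y ≠ q) (he : c.par x = c.par y) (hne : x ≠ y) :
    c.hi x < c.lo y ∨ c.hi y < c.lo x := by
  have h1 := h.ch_dn hr hx hxq
  have h2 := h.ch_dn hr hy hyq
  rw [← he] at h2
  rcases lt_trichotomy (c.pos (c.par x) x) (c.pos (c.par x) y) with h3 | h3 | h3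
  · exact Or.inl ((h.sep _ _ _ h1 h2 h3).2.2 ⟨hx, hxq, rfl⟩ ⟨hy, hyq, he.symm⟩)
  · exact absurd (h.inj _ _ _ h1 h2 h3) hne
  · exact Or.inr ((h.sep _ _ _ h2 h1 h3).2.2 ⟨hy, hyq, he.symm⟩ ⟨hx, hxq, rfl⟩)

/-- laminarity -/
theorem IsCt.tri (h : IsCt G H q Q c) (hr : ∀ v ∈ H, v ≠ q → rk (c.par v) < rk v) :
    ∀ x ∈ H, ∀ y ∈ H, Anc H q c x y ∨ Anc H q c y x ∨ c.hi x < c.lo y ∨ c.hi y < c.lo x := by
  have key : ∀ n, ∀ x ∈ H, ∀ y ∈ H, rk y = n →
      Anc H q c x y ∨ Anc H q c y x ∨ c.hi x < c.lo y ∨ c.hi y < c.lo x := by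
    intro n
    induction n using Nat.strong_induction_on with
    | _ n ih =>
      intro x hx y hy hn
      by_cases hq : y = q
      · subst hq; exact Or.inr (Or.inl (h.root_anc hr x hx))
      · have hp := h.par y hy hq
        have hc := h.ch y hy hq
        rcases ih (rk (c.par y)) (by have := hr y hy hq; omega) x hx (c.par y) hp.1 rfl with
          h1 | h1 | h1 | h1
        · exact Or.inl (h1.of_par hy hq)
        · by_cases he : c.par y = x
          · exact Or.inl (Anc.of_par (he ▸ ReflTransGen.refl) hy hq)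
          · obtain ⟨z, hz, hzq, hzp, hzx⟩ := h1.head he
            by_cases hzy : z = y
            · subst hzy; exact Or.inr (Or.inl hzx)
            · have h2 := h.anc_le hzx
              rcases h.sib hr hz hzq hy hq hzp hzy with h3 | h3
              · exact Or.inr (Or.inr (Or.inl (by omega)))
              · exact Or.inr (Or.inr (Or.inr (by omega)))
        · exact Or.inr (Or.inr (Or.inl (by omega)))
        · exact Or.inr (Or.inr (Or.inr (by omega)))
  exact fun x hx y hy => key _ x hx y hy rfl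

theorem IsCt.anc_iff (h : IsCt G H q Q c) (hr : ∀ v ∈ H, v ≠ q → rk (c.par v) < rk v)
    {x y : V} (hx : x ∈ H) (hy : y ∈ H) :
    Anc H q c x y ↔ c.lo x ≤ c.lo y ∧ c.hi y ≤ c.hi x := by
  refine ⟨fun ha => h.anc_le ha, fun hh => ?_⟩
  have hlx := h.lh x hx
  have hly := h.lh y hy
  rcases h.tri hr x hx y hy with h1 | h1 | h1 | h1
  · exact h1
  · by_cases he : y = x
    · subst he; exact ReflTransGen.refl
    · have := h.anc_block h1 he
      omega
  · omega
  · omega

/-- a block meeting the interior of the block of `y`, ... position of a non-tree dart inside a block -/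
theorem IsCt.dart_block (h : IsCt G H q Q c) (hr : ∀ v ∈ H, v ≠ q → rk (c.par v) < rk v)
    {u w x : V} (hd : Dn G H q Q c u w) (hn : ¬ Ch H q c u w) (hx : x ∈ H)
    (h1 : c.lo x ≤ c.pos u w) (h2 : c.pos u w ≤ c.hi x) : Anc H q c x u := by
  have hdn := h.dn u w hd
  rcases h.tri hr x hx u hd.1 with h3 | h3 | h3 | h3
  · exact h3
  · by_cases he : u = x
    · subst he; exact ReflTransGen.refl
    · obtain ⟨z, hz, hzq, hzp, hzx⟩ := h3.head he
      exfalso
      have hz2 := h.ch_dn hr hz hzq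
      rw [hzp] at hz2
      have h4 := h.anc_le hzx
      have hch : Ch H q c u z := ⟨hz, hzq, hzp⟩
      rcases lt_trichotomy (c.pos u z) (c.pos u w) with h5 | h5 | h5
      · have := (h.sep _ _ _ hz2 hd h5).1 hch
        omega
      · exact hn (h.inj _ _ _ hz2 hd h5 ▸ hch)
      · have := (h.sep _ _ _ hd hz2 h5).2.1 hch
        omega
  · omega
  · omega

/-- different non-tree darts have different positions -/
theorem IsCt.pos_inj (h : IsCt G H q Q c) (hr : ∀ v ∈ H, v ≠ q → rk (c.par v) < rk v)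
    {u w u' w' : V} (hd : Dn G H q Q c u w) (hn : ¬ Ch H q c u w)
    (hd' : Dn G H q Q c u' w') (hn' : ¬ Ch H q c u' w') (he : c.pos u w = c.pos u' w') :
    u = u' ∧ w = w' := by
  have h1 := h.dn _ _ hd
  have h2 := h.dn _ _ hd'
  have h3 := h.dart_block hr hd hn hd'.1 (by omega) (by omega)
  have h4 := h.dart_block hr hd' hn' hd.1 (by omega) (by omega)
  have h5 : u = u' := by
    by_contra hne
    have h6 := Anc.rank_lt hr h4 hne
    have h7 := Anc.rank hr h3
    omega
  subst h5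
  exact ⟨rfl, h.inj _ _ _ hd hd' he⟩

theorem IsCt.lo_inj (h : IsCt G H q Q c) (hr : ∀ v ∈ H, v ≠ q → rk (c.par v) < rk v)
    {x y : V} (hx : x ∈ H) (hy : y ∈ H) (he : c.lo x = c.lo y) : x = y := by
  by_contra hne
  have hlx := h.lh x hx
  have hly := h.lh y hy
  rcases h.tri hr x hx y hy with h1 | h1 | h1 | h1
  · have := h.anc_block h1 hne; omega
  · have := h.anc_block h1 (Ne.symm hne); omega
  · omega
  · omega

theorem IsCt.hi_inj (h : IsCt G H q Q c) (hr : ∀ v ∈ H, v ≠ q → rk (c.par v) < rk v)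
    {x y : V} (hx : x ∈ H) (hy : y ∈ H) (he : c.hi x = c.hi y) : x = y := by
  by_contra hne
  have hlx := h.lh x hx
  have hly := h.lh y hy
  rcases h.tri hr x hx y hy with h1 | h1 | h1 | h1
  · have := h.anc_block h1 hne; omega
  · have := h.anc_block h1 (Ne.symm hne); omega
  · omega
  · omega

/-- a dart `(u,w)` and a block of a vertex which is not an ancestor of `u` -/
theorem IsCt.dart_side (h : IsCt G H q Q c) (hr : ∀ v ∈ H, v ≠ q → rk (c.par v) < rk v)
    {u w x : V} (hd : Dn G H q Q c u w) (hn : ¬ Ch H q c u w) (hx : x ∈ H)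
    (ha : ¬ Anc H q c x u) : c.pos u w < c.lo x ∨ c.hi x < c.pos u w := by
  by_contra hh
  push Not at hh
  exact ha (h.dart_block hr hd hn hx hh.1 hh.2)

end lam

/-! ### mirror -/

/-- the mirror image of a contour -/
def Ct.mir (c : Ct V) : Ct V where
  par := c.par
  pos u w := - c.pos u w
  lo v := - c.hi v
  hi v := - c.lo v

section mir

variable {G : SimpleGraph V} {rk : V → ℕ} {H : Set V} {q : V} {Q : Set V} {c : Ct V}

theorem Ct.mir_mir (c : Ct V) : c.mir.mir = c := by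
  cases c; simp [Ct.mir]

theorem Ch_mir {u w : V} : Ch H q c.mir u w ↔ Ch H q c u w := Iff.rfl
theorem Dn_mir {u w : V} : Dn G H q Q c.mir u w ↔ Dn G H q Q c u w := Iff.rfl
theorem Ft_mir {H' : Set V} {d : V × V} : Ft G H H' q Q c.mir d ↔ Ft G H H' q Q c d := Iff.rfl
theorem Anc_mir {x y : V} : Anc H q c.mir x y ↔ Anc H q c x y := Iff.rfl

theorem Cn.symm' {X : Set V} {u v : V} (h : Cn G X u v) : Cn G X v u := by
  obtain ⟨hu, h⟩ := h
  have key : v ∈ X ∧ ReflTransGen (fun a b => G.Adj a b ∧ b ∈ X) v u := by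
    induction h with
    | refl => exact ⟨hu, ReflTransGen.refl⟩
    | tail h1 h2 ih =>
      exact ⟨h2.2, ReflTransGen.head ⟨h2.1.symm, ih.1⟩ ih.2⟩
  exact key

theorem Cn.trans' {X : Set V} {u v w : V} (h : Cn G X u v) (h' : Cn G X v w) : Cn G X u w :=
  ⟨h.1, h.2.trans h'.2⟩

theorem Cn.mono' {X Y : Set V} (hXY : X ⊆ Y) {u v : V} (h : Cn G X u v) : Cn G Y u v :=
  ⟨hXY h.1, ReflTransGen.mono (p := fun a b => G.Adj a b ∧ b ∈ Y) (fun _ _ hab => ⟨hab.1, hXY hab.2⟩) _ _ h.2⟩

theorem Cn.right_mem {X : Set V} {u v : V} (h : Cn G X u v) : v ∈ X := h.symm'.1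

theorem Cn.single {X : Set V} {u v : V} (hu : u ∈ X) (hv : v ∈ X) (ha : G.Adj u v) : Cn G X u v :=
  ⟨hu, ReflTransGen.single ⟨ha, hv⟩⟩

theorem Lk.symm' {H' X : Set V} {d e : V × V} (hd : d.1 ∈ H') (h : Lk G H' X d e) :
    Lk G H' X e d := by
  rcases h with ⟨h1, h2, h3⟩ | ⟨h1, h2⟩
  · subst h3; exact Or.inl ⟨h1, hd, rfl⟩
  · exact Or.inr ⟨h1, h2.symm'⟩

theorem IsCt.mir (h : IsCt G H q Q c) : IsCt G H q Q c.mir where
  qH := h.qH
  par := h.par
  QH := h.QH
  lh v hv := by have := h.lh v hv; simp only [Ct.mir]; omega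
  dn u w hd := by have := h.dn u w hd; simp only [Ct.mir]; omega
  ch w hw hq := by have := h.ch w hw hq; simp only [Ct.mir]; omega
  inj u w w' hd hd' he := h.inj u w w' hd hd' (by simpa [Ct.mir] using he)
  sep u w w' hd hd' hlt := by
    have hlt' : c.pos u w' < c.pos u w := by simpa [Ct.mir] using hlt
    have h1 := h.sep u w' w hd' hd hlt'
    refine ⟨fun hc => ?_, fun hc => ?_, fun hc hc' => ?_⟩
    · have := h1.2.1 hc; simp only [Ct.mir]; omega
    · have := h1.1 hc; simp only [Ct.mir]; omega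
    · have := h1.2.2 hc' hc; simp only [Ct.mir]; omega
  nc H' hH' hq' hp X Y hXY d d' e e' hd hd' he he' hX hY := by
    rintro ⟨h1, h2, h3⟩
    simp only [Ct.mir] at h1 h2 h3
    refine h.nc H' hH' hq' hp Y X hXY.symm e' e d' d he' he hd' hd (hY.symm' he.1) (hX.symm' hd.1)
      ⟨?_, ?_, ?_⟩ <;> omega

theorem Cyc.rev {a b c : ℤ} : Cyc (-a) (-b) (-c) ↔ Cyc c b a := by
  unfold Cyc; constructor <;> intro h <;> omega

theorem Ct.val_par {u w : V} (hw : w = c.par u) : c.val u w = c.hi u := by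
  unfold Ct.val; exact if_pos hw

theorem Ct.val_ne {u w : V} (hw : w ≠ c.par u) : c.val u w = c.pos u w := by
  unfold Ct.val; exact if_neg hw

theorem IsCt.val_lt (h : IsCt G H q Q c) {u w : V} (hu : u ∈ H) (hq : u ≠ q)
    (ha : G.Adj u w) (hw : w ≠ c.par u) : c.lo u < c.val u w ∧ c.val u w < c.hi u := by
  have := h.dn u w ⟨hu, ha, fun he => absurd he hq, fun _ => hw⟩
  rw [Ct.val_ne hw]
  exact this

theorem IsCt.mir_cyc (h : IsCt G H q Q c) {u : V} (hu : u ∈ H) (hq : u ≠ q) {x y z : V}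
    (hx : G.Adj u x) (hy : G.Adj u y) (hz : G.Adj u z) (hxy : x ≠ y) (hyz : y ≠ z) (hxz : x ≠ z) :
    Cyc (c.mir.val u x) (c.mir.val u y) (c.mir.val u z) ↔
      Cyc (c.val u z) (c.val u y) (c.val u x) := by
  have key : ∀ w, G.Adj u w → (w = c.par u ∧ c.val u w = c.hi u ∧ c.mir.val u w = - c.lo u) ∨
      (w ≠ c.par u ∧ c.mir.val u w = - c.val u w ∧ c.lo u < c.val u w ∧ c.val u w < c.hi u) := by
    intro w hw
    by_cases h1 : w = c.par u
    · exact Or.inl ⟨h1, Ct.val_par h1, Ct.val_par (c := c.mir) h1⟩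
    · refine Or.inr ⟨h1, ?_, h.val_lt hu hq hw h1⟩
      rw [Ct.val_ne (c := c.mir) h1, Ct.val_ne h1]; rfl
  unfold Cyc
  rcases key x hx with ⟨k1, k2, k3⟩ | ⟨k1, k2, k3, k4⟩ <;>
  rcases key y hy with ⟨l1, l2, l3⟩ | ⟨l1, l2, l3, l4⟩ <;>
  rcases key z hz with ⟨m1, m2, m3⟩ | ⟨m1, m2, m3, m4⟩
  · exact absurd (k1.trans l1.symm) hxy
  · exact absurd (k1.trans l1.symm) hxy
  · exact absurd (k1.trans m1.symm) hxz
  · rw [k3, l2, m2, k2]; constructor <;> intro h <;> omega
  · exact absurd (l1.trans m1.symm) hyz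
  · rw [k2, l3, m2, l2]; constructor <;> intro h <;> omega
  · rw [k2, l2, m3, m2]; constructor <;> intro h <;> omega
  · rw [k2, l2, m2]; constructor <;> intro h <;> omega

theorem NIok.mir {L R : Ct V} (h : NIok G rk H q Q L R) : NIok G rk H q Q R.mir L.mir where
  isL := h.isR.mir
  isR := h.isL.mir
  parL := h.parR
  parR := h.parL
  left u hu v hv ha hp := by
    have := h.right u hu v hv ha hp; simp only [Ct.mir]; omega
  right u hu v hv ha hp := by
    have := h.left u hu v hv ha hp; simp only [Ct.mir]; omega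
  rot u hu hq x y z hx hy hz hxy hyz hxz := by
    rw [h.isR.mir_cyc hu hq hx hy hz hxy hyz hxz, h.isL.mir_cyc hu hq hx hy hz hxy hyz hxz]
    exact (h.rot u hu hq z y x hz hy hx (Ne.symm hyz) (Ne.symm hxy) (Ne.symm hxz)).symm
  rotq x hx y hy hax hay := by
    have := h.rotq y hy x hx hay hax
    simp only [Ct.mir]
    constructor
    · intro h1; have := this.2 (by omega); omega
    · intro h1; have := this.1 (by omega); omega

end mir

end Pool.BD
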