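import Mathlib

/-!
# Bounded Boolean dimension of families of relations: calculus (block T)
`Bd X Dom Rel`: for all members of the family the relation `Rel` is decided, on pairs of different elements
satisfying `Dom`, by one Boolean function applied to the comparison bits in a fixed number of linear orders.
-/

set_option autoImplicit false

namespace Pool.BD

universe u

/-- comparison bits -/
def Bits {X : Type} {K : ℕ} (L : Fin K → X → ℕ) (x y : X) : Fin K → Bool :=
  fun j => decide (L j x < L j y)

/-- uniformly bounded Boolean dimension -/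
def Bd {ι : Type u} (X : ι → Type) (Dom Rel : ∀ i, X i → X i → Prop) : Prop :=
  ∃ (K : ℕ) (φ : (Fin K → Bool) → Bool), ∀ i, ∃ L : Fin K → X i → ℕ,
    (∀ j, Function.Injective (L j)) ∧
      ∀ x y, x ≠ y → Dom i x y → (Rel i x y ↔ φ (Bits L x y) = true)

variable {ι : Type u} {X : ι → Type} {Dom Rel Rel' : ∀ i, X i → X i → Prop}

theorem Bd.mono {Dom' : ∀ i, X i → X i → Prop} (h : Bd X Dom Rel)
    (hd : ∀ i x y, x ≠ y → Dom' i x y → Dom i x y ∧ (Rel' i x y ↔ Rel i x y)) : Bd X Dom' Rel' := by
  obtain ⟨K, φ, h⟩ := h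
  refine ⟨K, φ, fun i => ?_⟩
  obtain ⟨L, hL, h⟩ := h i
  exact ⟨L, hL, fun x y hne hxy => (hd i x y hne hxy).2.trans (h x y hne (hd i x y hne hxy).1)⟩

theorem Bd.not (h : Bd X Dom Rel) : Bd X Dom (fun i x y => ¬ Rel i x y) := by
  obtain ⟨K, φ, h⟩ := h
  refine ⟨K, fun b => !(φ b), fun i => ?_⟩
  obtain ⟨L, hL, h⟩ := h i
  refine ⟨L, hL, fun x y hne hxy => ?_⟩
  beta_reduce
  rw [h x y hne hxy]
  simp

theorem Bd.and (h : Bd X Dom Rel) (h' : Bd X Dom Rel') :
    Bd X Dom (fun i x y => Rel i x y ∧ Rel' i x y) := by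
  obtain ⟨K, φ, h⟩ := h
  obtain ⟨K', φ', h'⟩ := h'
  refine ⟨K + K', fun b => φ (fun j => b (Fin.castAdd K' j)) && φ' (fun j => b (Fin.natAdd K j)),
    fun i => ?_⟩
  obtain ⟨L, hL, h⟩ := h i
  obtain ⟨L', hL', h'⟩ := h' i
  refine ⟨Fin.append L L', fun j => ?_, fun x y hne hxy => ?_⟩
  · refine Fin.addCases (fun j => ?_) (fun j => ?_) j
    · rw [Fin.append_left]; exact hL j
    · rw [Fin.append_right]; exact hL' j
  · have h1 : (fun j => Bits (Fin.append L L') x y (Fin.castAdd K' j)) = Bits L x y := by
      funext j; simp [Bits]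
    have h2 : (fun j => Bits (Fin.append L L') x y (Fin.natAdd K j)) = Bits L' x y := by
      funext j; simp [Bits]
    beta_reduce
    rw [h x y hne hxy, h' x y hne hxy, h1, h2, Bool.and_eq_true]

theorem Bd.or (h : Bd X Dom Rel) (h' : Bd X Dom Rel') :
    Bd X Dom (fun i x y => Rel i x y ∨ Rel' i x y) := by
  refine (h.not.and h'.not).not.mono (Dom' := Dom) (fun i x y _ hd => ⟨hd, ?_⟩)
  tauto

theorem Bd.imp (h : Bd X Dom Rel) (h' : Bd X Dom Rel') :
    Bd X Dom (fun i x y => Rel i x y → Rel' i x y) := by
  refine (h.not.or h').mono (Dom' := Dom) (fun i x y _ hd => ⟨hd, ?_⟩)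
  tauto

/-- comparison in an injective order -/
theorem Bd.bit (f : ∀ i, X i → ℕ) (hf : ∀ i, Function.Injective (f i)) :
    Bd X Dom (fun i x y => f i x < f i y) := by
  refine ⟨1, fun b => b 0, fun i => ⟨fun _ => f i, fun _ => hf i, fun x y _ _ => ?_⟩⟩
  simp [Bits]

theorem Bd.const (p : Prop) : Bd X Dom (fun _ _ _ => p) := by
  classical
  refine ⟨0, fun _ => decide p, fun i => ⟨fun j => j.elim0, fun j => j.elim0, fun x y _ _ => ?_⟩⟩
  simp

/-- a finite type has an injective function to `ℕ` refining a linear preorder -/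
theorem exists_inj_refine {X : Type} [Finite X] {α : Type} [LinearOrder α] (k : X → α) :
    ∃ f : X → ℕ, Function.Injective f ∧ ∀ x y, k x < k y → f x < f y := by
  classical
  have := Fintype.ofFinite X
  obtain ⟨e⟩ : Nonempty (X ≃ Fin (Fintype.card X)) := ⟨Fintype.equivFin X⟩
  -- lexicographic order by `k`, then by `e`
  let key : X → α ×ₗ Fin (Fintype.card X) := fun x => toLex (k x, e x)
  have hkey : Function.Injective key := fun x y h => by
    have : (k x, e x) = (k y, e y) := toLex.injective h
    exact e.injective (Prod.mk.inj this).2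
  refine ⟨fun x => (Finset.univ.filter (fun z => key z < key x)).card, ?_, ?_⟩
  · intro x y hxy
    rcases lt_trichotomy (key x) (key y) with h | h | h
    · exfalso
      have : (Finset.univ.filter (fun z => key z < key x)) ⊂
          (Finset.univ.filter (fun z => key z < key y)) := by
        refine Finset.ssubset_iff_of_subset ?_ |>.2 ⟨x, ?_, ?_⟩
        · intro z hz
          simp only [Finset.mem_filter, Finset.mem_univ, true_and] at hz ⊢
          exact hz.trans h
        · simpa using h
        · simp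
      have := Finset.card_lt_card this
      simp only at hxy
      omega
    · exact hkey h
    · exfalso
      have : (Finset.univ.filter (fun z => key z < key y)) ⊂
          (Finset.univ.filter (fun z => key z < key x)) := by
        refine Finset.ssubset_iff_of_subset ?_ |>.2 ⟨y, ?_, ?_⟩
        · intro z hz
          simp only [Finset.mem_filter, Finset.mem_univ, true_and] at hz ⊢
          exact hz.trans h
        · simpa using h
        · simp
      have := Finset.card_lt_card this
      simp only at hxy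
      omega
  · intro x y hxy
    have h : key x < key y := Prod.Lex.toLex_lt_toLex.2 (Or.inl hxy)
    have : (Finset.univ.filter (fun z => key z < key x)) ⊂
        (Finset.univ.filter (fun z => key z < key y)) := by
      refine Finset.ssubset_iff_of_subset ?_ |>.2 ⟨x, ?_, ?_⟩
      · intro z hz
        simp only [Finset.mem_filter, Finset.mem_univ, true_and] at hz ⊢
        exact hz.trans h
      · simpa using h
      · simp
    exact Finset.card_lt_card this

/-- comparison of keys, when the domain excludes ties -/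
theorem Bd.key (hX : ∀ i, Finite (X i)) {α : ι → Type} [∀ i, LinearOrder (α i)]
    (k : ∀ i, X i → α i) (hd : ∀ i x y, x ≠ y → Dom i x y → k i x ≠ k i y) :
    Bd X Dom (fun i x y => k i x < k i y) := by
  choose f hf hk using fun i => (haveI := hX i; exists_inj_refine (k i))
  refine (Bd.bit (Dom := Dom) f hf).mono (fun i x y hne hxy => ⟨hxy, ?_⟩)
  constructor
  · exact hk i x y
  · intro h
    by_contra h'
    rcases lt_or_eq_of_le (not_lt.1 h') with h1 | h1
    · have := hk i y x h1; omega
    · exact hd i x y hne hxy h1.symm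

/-- labels: a unary label of the first element is decidable -/
theorem Bd.lab (hX : ∀ i, Finite (X i)) (g : ∀ i, X i → Prop) :
    Bd X Dom (fun i x _ => g i x) := by
  classical
  have hinj : ∀ i, ∃ f : X i → ℕ, Function.Injective f := fun i => by
    have := hX i
    obtain ⟨f, hf, _⟩ := exists_inj_refine (fun _ : X i => (0 : ℕ))
    exact ⟨f, hf⟩
  choose f hf using hinj
  -- k1 : label first (false < true), k2 : label reversed, k3 : label first, reversed inside true
  let k1 : ∀ i, X i → ℤ ×ₗ ℤ := fun i x => toLex (if g i x then 1 else 0, (f i x : ℤ))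
  let k2 : ∀ i, X i → ℤ ×ₗ ℤ := fun i x => toLex (if g i x then 0 else 1, (f i x : ℤ))
  let k3 : ∀ i, X i → ℤ ×ₗ ℤ := fun i x =>
    toLex (if g i x then 1 else 0, if g i x then -(f i x : ℤ) else (f i x : ℤ))
  have e1 : Bd X Dom (fun i x y => k1 i x < k1 i y) := Bd.key hX k1 (fun i x y hne _ h => hne (by
    have := Prod.mk.inj (toLex.injective h)
    exact hf i (by exact_mod_cast this.2)))
  have e2 : Bd X Dom (fun i x y => k2 i x < k2 i y) := Bd.key hX k2 (fun i x y hne _ h => hne (by
    have := Prod.mk.inj (toLex.injective h)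
    exact hf i (by exact_mod_cast this.2)))
  have e3 : Bd X Dom (fun i x y => k3 i x < k3 i y) := Bd.key hX k3 (fun i x y hne _ h => hne (by
    have := Prod.mk.inj (toLex.injective h)
    by_cases h1 : g i x <;> by_cases h2 : g i y <;> simp only [h1, h2, if_true, if_false] at this
    · exact hf i (by have := this.2; omega)
    · omega
    · omega
    · exact hf i (by have := this.2; omega)))
  -- g x <-> (k1 >= and k2 <) or (k1 bit = k2 bit and k3 bit <> k1 bit)
  have e : Bd X Dom (fun i x y => (¬ k1 i x < k1 i y ∧ k2 i x < k2 i y) ∨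
      (((k1 i x < k1 i y) ∧ (k2 i x < k2 i y) ∧ ¬ (k3 i x < k3 i y)) ∨
       (¬ (k1 i x < k1 i y) ∧ ¬ (k2 i x < k2 i y) ∧ (k3 i x < k3 i y)))) :=
    (e1.not.and e2).or ((e1.and (e2.and e3.not)).or (e1.not.and (e2.not.and e3)))
  refine e.mono (fun i x y hne hxy => ⟨hxy, ?_⟩)
  have hne' : (f i x : ℤ) ≠ f i y := fun h => hne (hf i (by exact_mod_cast h))
  simp only [k1, k2, k3, Prod.Lex.toLex_lt_toLex]
  by_cases h1 : g i x <;> by_cases h2 : g i y <;>
    simp only [h1, h2, if_true, if_false, true_iff, false_iff, lt_irrefl, false_or, true_and] <;> omega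

/-- labels of the second element -/
theorem Bd.lab' (hX : ∀ i, Finite (X i)) (g : ∀ i, X i → Prop) :
    Bd X Dom (fun i _ y => g i y) := by
  classical
  have hinj : ∀ i, ∃ f : X i → ℕ, Function.Injective f := fun i => by
    have := hX i
    obtain ⟨f, hf, _⟩ := exists_inj_refine (fun _ : X i => (0 : ℕ))
    exact ⟨f, hf⟩
  choose f hf using hinj
  let k1 : ∀ i, X i → ℤ ×ₗ ℤ := fun i x => toLex (if g i x then 1 else 0, (f i x : ℤ))
  let k2 : ∀ i, X i → ℤ ×ₗ ℤ := fun i x => toLex (if g i x then 0 else 1, (f i x : ℤ))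
  have e1 : Bd X Dom (fun i x y => k1 i x < k1 i y) := Bd.key hX k1 (fun i x y hne _ h => hne (by
    have := Prod.mk.inj (toLex.injective h)
    exact hf i (by exact_mod_cast this.2)))
  have e2 : Bd X Dom (fun i x y => k2 i x < k2 i y) := Bd.key hX k2 (fun i x y hne _ h => hne (by
    have := Prod.mk.inj (toLex.injective h)
    exact hf i (by exact_mod_cast this.2)))
  have e0 := Bd.lab (Dom := Dom) hX g
  -- g y <-> (g x and k1, k2 bits equal) or (not g x and k1, k2 bits different)
  have e : Bd X Dom (fun i x y => (g i x ∧ ((k1 i x < k1 i y ∧ k2 i x < k2 i y) ∨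
        (¬ k1 i x < k1 i y ∧ ¬ k2 i x < k2 i y))) ∨
      (¬ g i x ∧ ((k1 i x < k1 i y ∧ ¬ k2 i x < k2 i y) ∨
        (¬ k1 i x < k1 i y ∧ k2 i x < k2 i y)))) :=
    (e0.and ((e1.and e2).or (e1.not.and e2.not))).or
      (e0.not.and ((e1.and e2.not).or (e1.not.and e2)))
  refine e.mono (fun i x y hne hxy => ⟨hxy, ?_⟩)
  have hne' : (f i x : ℤ) ≠ f i y := fun h => hne (hf i (by exact_mod_cast h))
  simp only [k1, k2, Prod.Lex.toLex_lt_toLex]
  by_cases h1 : g i x <;> by_cases h2 : g i y <;>
    simp only [h1, h2, if_true, if_false, true_iff, false_iff, lt_irrefl, false_or, true_and,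
      not_true_eq_false, not_false_eq_true, false_and, or_false] <;> omega

end Pool.BD
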