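import Pool.Agent.H56.BD.Bd
import Pool.Agent.H42.M1.Lx

/-!
# Block T: lexicographic pullback along words; two-copy version
-/

set_option autoImplicit false

namespace Pool.BD

universe u

variable {ι : Type u}

/-- pullback along words: the relation of two elements is decided by the first different letters -/
theorem Bd.lex {X E : ι → Type} {Dom Rel : ∀ i, X i → X i → Prop}
    {DomE RelE : ∀ i, E i → E i → Prop} (hX : ∀ i, Finite (X i)) (w : ∀ i, X i → List (E i))
    (h : Bd E DomE RelE)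
    (hw : ∀ i x y, x ≠ y → ∃ (p s s' : List (E i)) (e e' : E i), e ≠ e' ∧
      w i x = p ++ e :: s ∧ w i y = p ++ e' :: s')
    (hr : ∀ i x y (p s s' : List (E i)) (e e' : E i), e ≠ e' → w i x = p ++ e :: s →
      w i y = p ++ e' :: s' → Dom i x y →
      DomE i e e' ∧ (Rel i x y ↔ RelE i e e')) : Bd X Dom Rel := by
  obtain ⟨K, φ, h⟩ := h
  refine ⟨K, φ, fun i => ?_⟩
  obtain ⟨L, hL, h⟩ := h i
  have := hX i
  -- comparison of words
  have key : ∀ j x y p s s' e e', e ≠ e' → w i x = p ++ e :: s → w i y = p ++ e' :: s' →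
      ((w i x).map (L j) < (w i y).map (L j) ↔ L j e < L j e') := by
    intro j x y p s s' e e' hne hx hy
    rw [hx, hy, List.map_append, List.map_append, Pool.M1.app_lt_app, List.map_cons, List.map_cons,
      Pool.M1.cons_lt']
    constructor
    · rintro (h1 | ⟨h1, _⟩)
      · exact h1
      · exact absurd (hL j h1) hne
    · exact Or.inl
  have hF : ∀ j, ∃ F : X i → ℕ, Function.Injective F ∧ ∀ x y,
      (w i x).map (L j) < (w i y).map (L j) → F x < F y :=
    fun j => exists_inj_refine (fun x => (w i x).map (L j))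
  choose F hF1 hF2 using hF
  refine ⟨F, hF1, fun x y hne hd => ?_⟩
  obtain ⟨p, s, s', e, e', hne', hx, hy⟩ := hw i x y hne
  obtain ⟨h1, h2⟩ := hr i x y p s s' e e' hne' hx hy hd
  rw [h2, h e e' hne' h1]
  have : Bits L e e' = Bits F x y := by
    funext j
    simp only [Bits]
    congr 1
    apply propext
    constructor
    · intro hlt
      exact hF2 j x y ((key j x y p s s' e e' hne' hx hy).2 hlt)
    · intro hlt
      by_contra hge
      rcases lt_or_eq_of_le (not_lt.1 hge) with h3 | h3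
      · have := hF2 j y x ((key j y x p s' s e' e (Ne.symm hne') hy hx).2 h3)
        omega
      · exact hne' (hL j h3).symm
  rw [this]

/-- uniformly bounded two-copy relations -/
def Bt (A B : ι → Type) (Dom Rel : ∀ i, A i → B i → Prop) : Prop :=
  ∃ (K : ℕ) (φ : (Fin K → Bool) → Bool), ∀ i, ∃ (α : Fin K → A i → ℕ) (β : Fin K → B i → ℕ),
    ∀ a b, Dom i a b → (Rel i a b ↔ φ (fun j => decide (α j a < β j b)) = true)

variable {A B : ι → Type} {Dom Rel Rel' : ∀ i, A i → B i → Prop}

theorem Bt.mono {Dom' : ∀ i, A i → B i → Prop} (h : Bt A B Dom Rel)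
    (hd : ∀ i x y, Dom' i x y → Dom i x y ∧ (Rel' i x y ↔ Rel i x y)) : Bt A B Dom' Rel' := by
  obtain ⟨K, φ, h⟩ := h
  refine ⟨K, φ, fun i => ?_⟩
  obtain ⟨α, β, h⟩ := h i
  exact ⟨α, β, fun x y hxy => (hd i x y hxy).2.trans (h x y (hd i x y hxy).1)⟩

theorem Bt.pull {A' B' : ι → Type} (f : ∀ i, A' i → A i) (g : ∀ i, B' i → B i)
    (h : Bt A B Dom Rel) :
    Bt A' B' (fun i a b => Dom i (f i a) (g i b)) (fun i a b => Rel i (f i a) (g i b)) := by
  obtain ⟨K, φ, h⟩ := h
  refine ⟨K, φ, fun i => ?_⟩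
  obtain ⟨α, β, h⟩ := h i
  exact ⟨fun j a => α j (f i a), fun j b => β j (g i b), fun x y hxy => h _ _ hxy⟩

theorem Bt.not (h : Bt A B Dom Rel) : Bt A B Dom (fun i x y => ¬ Rel i x y) := by
  obtain ⟨K, φ, h⟩ := h
  refine ⟨K, fun b => !(φ b), fun i => ?_⟩
  obtain ⟨α, β, h⟩ := h i
  refine ⟨α, β, fun x y hxy => ?_⟩
  beta_reduce
  rw [h x y hxy]
  simp

theorem Bt.and (h : Bt A B Dom Rel) (h' : Bt A B Dom Rel') :
    Bt A B Dom (fun i x y => Rel i x y ∧ Rel' i x y) := by
  obtain ⟨K, φ, h⟩ := h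
  obtain ⟨K', φ', h'⟩ := h'
  refine ⟨K + K', fun b => φ (fun j => b (Fin.castAdd K' j)) && φ' (fun j => b (Fin.natAdd K j)),
    fun i => ?_⟩
  obtain ⟨α, β, h⟩ := h i
  obtain ⟨α', β', h'⟩ := h' i
  refine ⟨Fin.append α α', Fin.append β β', fun x y hxy => ?_⟩
  beta_reduce
  have h1 : (fun j => decide (Fin.append α α' (Fin.castAdd K' j) x <
      Fin.append β β' (Fin.castAdd K' j) y)) = (fun j => decide (α j x < β j y)) := by
    funext j; simp
  have h2 : (fun j => decide (Fin.append α α' (Fin.natAdd K j) x <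
      Fin.append β β' (Fin.natAdd K j) y)) = (fun j => decide (α' j x < β' j y)) := by
    funext j; simp
  rw [h x y hxy, h' x y hxy, h1, h2, Bool.and_eq_true]

theorem Bt.or (h : Bt A B Dom Rel) (h' : Bt A B Dom Rel') :
    Bt A B Dom (fun i x y => Rel i x y ∨ Rel' i x y) := by
  refine (h.not.and h'.not).not.mono (Dom' := Dom) (fun i x y hd => ⟨hd, ?_⟩)
  tauto

/-- a threshold -/
theorem Bt.thr {α : ι → Type} [∀ i, LinearOrder (α i)] (hA : ∀ i, Finite (A i))
    (hB : ∀ i, Finite (B i)) (k : ∀ i, A i → α i) (k' : ∀ i, B i → α i) :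
    Bt A B Dom (fun i x y => k i x < k' i y) := by
  classical
  refine ⟨1, fun b => b 0, fun i => ?_⟩
  have := hA i
  have := hB i
  have := Fintype.ofFinite (A i)
  have := Fintype.ofFinite (B i)
  refine ⟨fun _ a => (Finset.univ.filter (fun b => k' i b ≤ k i a)).card,
    fun _ b => (Finset.univ.filter (fun b' => k' i b' ≤ k' i b)).card, fun a b _ => ?_⟩
  simp only [decide_eq_true_eq]
  constructor
  · intro h
    apply Finset.card_lt_card
    refine (Finset.ssubset_iff_of_subset ?_).2 ⟨b, ?_, ?_⟩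
    · intro z hz
      simp only [Finset.mem_filter, Finset.mem_univ, true_and] at hz ⊢
      exact hz.trans h.le
    · simp
    · simpa using h
  · intro h
    by_contra h'
    have : (Finset.univ.filter (fun b' => k' i b' ≤ k' i b)) ⊆
        (Finset.univ.filter (fun b => k' i b ≤ k i a)) := by
      intro z hz
      simp only [Finset.mem_filter, Finset.mem_univ, true_and] at hz ⊢
      exact hz.trans (not_lt.1 h')
    have := Finset.card_le_card this
    omega

/-- a threshold, weak inequality -/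
theorem Bt.thr_le {α : ι → Type} [∀ i, LinearOrder (α i)] (hA : ∀ i, Finite (A i))
    (hB : ∀ i, Finite (B i)) (k : ∀ i, A i → α i) (k' : ∀ i, B i → α i) :
    Bt A B Dom (fun i x y => k i x ≤ k' i y) := by
  have h := Bt.thr (Dom := Dom) (α := fun i => (α i)ᵒᵈ) hA hB (fun i a => OrderDual.toDual (k i a))
    (fun i b => OrderDual.toDual (k' i b))
  refine h.not.mono (Dom' := Dom) (fun i x y hd => ⟨hd, ?_⟩)
  rw [OrderDual.toDual_lt_toDual, not_lt]

/-- from two-copy to one-copy, for a type in which the two roles are disjoint -/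
theorem Bt.toBd {X : ι → Type} {D R : ∀ i, X i → X i → Prop} (hX : ∀ i, Finite (X i))
    (SA SB : ∀ i, X i → Prop) (hdis : ∀ i x, SA i x → SB i x → False)
    (f : ∀ i, X i → A i) (g : ∀ i, X i → B i) (h : Bt A B Dom Rel)
    (hr : ∀ i x y, x ≠ y → D i x y → SA i x ∧ SB i y ∧ Dom i (f i x) (g i y) ∧
      (R i x y ↔ Rel i (f i x) (g i y))) : Bd X D R := by
  classical
  obtain ⟨K, φ, h⟩ := h
  refine ⟨K, φ, fun i => ?_⟩
  obtain ⟨α, β, h⟩ := h i
  have := hX i
  have hF : ∀ j : Fin K, ∃ F : X i → ℕ, Function.Injective F ∧ ∀ x y,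
      (if SA i x then 2 * α j (f i x) + 1 else 2 * β j (g i x)) <
      (if SA i y then 2 * α j (f i y) + 1 else 2 * β j (g i y)) → F x < F y :=
    fun j => exists_inj_refine _
  choose F hF1 hF2 using hF
  refine ⟨F, hF1, fun x y hne hd => ?_⟩
  obtain ⟨ha, hb, hd', hr'⟩ := hr i x y hne hd
  have hnb : ¬ SA i y := fun h' => hdis i y h' hb
  rw [hr', h _ _ hd']
  have : (fun j => decide (α j (f i x) < β j (g i y))) = Bits F x y := by
    funext j
    simp only [Bits]
    congr 1
    apply propext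
    constructor
    · intro hlt
      apply hF2 j x y
      rw [if_pos ha, if_neg hnb]
      omega
    · intro hlt
      by_contra hge
      have := hF2 j y x (by rw [if_pos ha, if_neg hnb]; omega)
      omega
  rw [this]

end Pool.BD
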