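import Pool.Agent.H56.BD.Basic

/-!
# Block N: statements of the modules
Part 1: one node (a hub `H` with root `q`, leftmost tree `L`, rightmost tree `R`).
Part 2: the tree of nodes, active nodes, reduction to the nodes.
-/

set_option autoImplicit false

namespace Pool.BD

open Relation

variable {V : Type}

/-! ## Part 1: one node -/

/-- the hub without its root is closed under reachability -/
def Up (G : SimpleGraph V) (rk : V → ℕ) (H : Set V) (q : V) : Prop :=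
  ∀ u ∈ H, u ≠ q → ∀ v, Ar G rk u v → v ∈ H

/-- standing hypotheses at one node -/
structure NH (G : SimpleGraph V) (rk : V → ℕ) (H : Set V) (q : V) (Q : Set V) (L R : Ct V) :
    Prop where
  ok : NIok G rk H q Q L R
  up : Up G rk H q
  inj : Function.Injective rk

/-- the vertices of the hub which reach `b` -/
def Ds (G : SimpleGraph V) (rk : V → ℕ) (H : Set V) (b : V) : Set V := {u | u ∈ H ∧ Re G rk u b}

/-- no arc of the hub lands on the left side of the tree path to `b` (landing on proper ancestors of `b`) -/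
def Sp (G : SimpleGraph V) (rk : V → ℕ) (H : Set V) (q : V) (L : Ct V) (b : V) : Prop :=
  b ∈ H ∧ b ≠ q ∧ ∀ u ∈ H, ∀ y ∈ H, Ar G rk u y → L.par y ≠ u → L.lo y < L.lo b → L.hi b < L.hi y →
    L.lo b < L.pos y u

/-- position `p` is covered by a non-tree arc with both ends in `D` (arcs go to the left) -/
def Cov (G : SimpleGraph V) (rk : V → ℕ) (D : Set V) (L : Ct V) (p : ℤ) : Prop :=
  ∃ x ∈ D, ∃ y ∈ D, Ar G rk x y ∧ L.par y ≠ x ∧ L.pos y x < p ∧ p < L.pos x y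

/-- reachability inside the hub moves to the left in `L` and to the right in `R` -/
def RCH : Prop :=
  ∀ (V : Type) (G : SimpleGraph V) (rk : V → ℕ) (H : Set V) (q : V) (Q : Set V) (L R : Ct V),
    NH G rk H q Q L R → ∀ x ∈ H, ∀ y ∈ H, x ≠ y → Re G rk x y →
      L.hi y < L.hi x ∧ R.lo x < R.lo y

/-- corollary of `RCH`: `x` reaches `y` implies `x` ancestor of `y` or `x` right of `y` in `L` -/
def RCL : Prop :=
  ∀ (V : Type) (G : SimpleGraph V) (rk : V → ℕ) (H : Set V) (q : V) (Q : Set V) (L R : Ct V),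
    NH G rk H q Q L R → ∀ x ∈ H, ∀ y ∈ H, Re G rk x y →
      (Anc H q L x y ∨ L.hi y < L.lo x) ∧ (Anc H q R x y ∨ R.hi x < R.lo y)

open Classical in
/-- right end of the dart `(x,w)`: of its block for a tree dart, the position otherwise -/
noncomputable def Ed (H : Set V) (q : V) (c : Ct V) (x w : V) : ℤ :=
  if Ch H q c x w then c.hi w else c.pos x w

/-- `g` is the first dart at `x` to a vertex of `D` after position `e`, if there is one before the end of the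
block of `x`, and the parent of `x` otherwise (`x ≠ q`) -/
def Nxt (G : SimpleGraph V) (H : Set V) (q : V) (Q : Set V) (L : Ct V) (D : Set V) (x : V) (e : ℤ)
    (g : V) : Prop :=
  (g ∈ D ∧ Dn G H q Q L x g ∧ e < L.pos x g ∧
      ∀ z ∈ D, Dn G H q Q L x z → e < L.pos x z → L.pos x g ≤ L.pos x z) ∨
    ((∀ z ∈ D, Dn G H q Q L x z → ¬ e < L.pos x z) ∧ x ≠ q ∧ g = L.par x)

/-- states `(x, w, e)` of the walk along the right boundary of `D`, from `b` upwards: the walk is at `x`, the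
previous vertex is `w`, `e` is the end of the dart `(x,w)` -/
inductive Wk (G : SimpleGraph V) (H : Set V) (q : V) (Q : Set V) (L : Ct V) (D : Set V) (b : V) :
    V → V → ℤ → Prop
  | base : Wk G H q Q L D b b b (L.lo b)
  | step {x w : V} {e : ℤ} {g : V} : Wk G H q Q L D b x w e → Nxt G H q Q L D x e g →
      Wk G H q Q L D b g x (Ed H q L g x)

/-- invariant of a state -/
def Inv (G : SimpleGraph V) (rk : V → ℕ) (H : Set V) (q : V) (Q : Set V) (L : Ct V) (D : Set V)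
    (b x w : V) (e : ℤ) : Prop :=
  x ∈ D ∧ ¬ Cov G rk D L e ∧
    ((x = b ∧ w = b ∧ e = L.lo b) ∨
      (x ≠ b ∧ w ∈ D ∧ Ar G rk x w ∧ Dn G H q Q L x w ∧ e = Ed H q L x w ∧ L.hi b ≤ e))

/-- after an uncovered end `e` at `x`, all darts to `D` are in-darts -/
def W1 : Prop :=
  ∀ (V : Type) (G : SimpleGraph V) (rk : V → ℕ) (H : Set V) (q : V) (Q : Set V) (L R : Ct V) (b : V),
    NH G rk H q Q L R → Sp G rk H q L b →
    ∀ (x w : V) (e : ℤ), Inv G rk H q Q L (Ds G rk H b) b x w e →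
      ∀ z ∈ Ds G rk H b, Dn G H q Q L x z → e < L.pos x z → Ar G rk z x

/-- the invariant is preserved -/
def W2 : Prop :=
  ∀ (V : Type) (G : SimpleGraph V) (rk : V → ℕ) (H : Set V) (q : V) (Q : Set V) (L R : Ct V) (b : V),
    NH G rk H q Q L R → Sp G rk H q L b →
    ∀ (x w : V) (e : ℤ), Inv G rk H q Q L (Ds G rk H b) b x w e →
      ∀ g, Nxt G H q Q L (Ds G rk H b) x e g →
        Inv G rk H q Q L (Ds G rk H b) b g x (Ed H q L g x) ∧ Ar G rk g x

/-- all states satisfy the invariant, and the walk ends at the root, after which there is no dart to `D` -/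
def W3 : Prop :=
  ∀ (V : Type) [Finite V] (G : SimpleGraph V) (rk : V → ℕ) (H : Set V) (q : V) (Q : Set V)
    (L R : Ct V) (b : V),
    NH G rk H q Q L R → Sp G rk H q L b →
    (∀ x w e, Wk G H q Q L (Ds G rk H b) b x w e → Inv G rk H q Q L (Ds G rk H b) b x w e) ∧
    (∀ x w e, Wk G H q Q L (Ds G rk H b) b x w e → x ≠ q → ∃ g, Nxt G H q Q L (Ds G rk H b) x e g) ∧
    (∀ w e, Wk G H q Q L (Ds G rk H b) b q w e → ∀ z ∈ Ds G rk H b, Dn G H q Q L q z →
      ¬ e < L.pos q z) ∧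
    (∃ w e, Wk G H q Q L (Ds G rk H b) b q w e)

/-- the walk is the path of `R` to `b` -/
def WEQ : Prop :=
  ∀ (V : Type) [Finite V] (G : SimpleGraph V) (rk : V → ℕ) (H : Set V) (q : V) (Q : Set V)
    (L R : Ct V) (b : V),
    NH G rk H q Q L R → Sp G rk H q L b →
    ∀ x w e, Wk G H q Q L (Ds G rk H b) b x w e → Anc H q R x b ∧ (x ≠ b → R.par w = x ∧ Anc H q R w b)

/-- an `R`-ancestor of `b` is a state of the walk -/
def WAN : Prop :=
  ∀ (V : Type) [Finite V] (G : SimpleGraph V) (rk : V → ℕ) (H : Set V) (q : V) (Q : Set V)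
    (L R : Ct V) (b : V),
    NH G rk H q Q L R → Sp G rk H q L b →
    ∀ x, Anc H q R x b → ∃ w e, Wk G H q Q L (Ds G rk H b) b x w e

/-- at a vertex of the walk the dart `(x,w)` is the last dart to `D` in the order of `R` -/
def WLA : Prop :=
  ∀ (V : Type) [Finite V] (G : SimpleGraph V) (rk : V → ℕ) (H : Set V) (q : V) (Q : Set V)
    (L R : Ct V) (b : V),
    NH G rk H q Q L R → Sp G rk H q L b →
    ∀ x w e, Wk G H q Q L (Ds G rk H b) b x w e → x ≠ b → ∀ z ∈ Ds G rk H b, z ≠ w →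
      Dn G H q Q R x z → R.pos x z < R.pos x w

/-- (k0) -/
def K0 : Prop :=
  ∀ (V : Type) (G : SimpleGraph V) (rk : V → ℕ) (H : Set V) (q : V) (Q : Set V) (L R : Ct V) (b : V),
    NH G rk H q Q L R → Sp G rk H q L b →
    (∀ u ∈ Ds G rk H b, ¬ L.hi u < L.lo b) ∧
    (∀ x ∈ Ds G rk H b, ∀ y ∈ Ds G rk H b, Ar G rk x y → L.par y ≠ x → L.lo b < L.pos y x)

/-- (k1) the situation is mirror symmetric -/
def K1 : Prop :=
  ∀ (V : Type) [Finite V] (G : SimpleGraph V) (rk : V → ℕ) (H : Set V) (q : V) (Q : Set V)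
    (L R : Ct V) (b : V),
    NH G rk H q Q L R → Sp G rk H q L b → Sp G rk H q R.mir b

/-- (k2) uncovered darts on the right = darts on the right side of the `R`-path -/
def K2 : Prop :=
  ∀ (V : Type) [Finite V] (G : SimpleGraph V) (rk : V → ℕ) (H : Set V) (q : V) (Q : Set V)
    (L R : Ct V) (b : V),
    NH G rk H q Q L R → Sp G rk H q L b →
    ∀ u ∈ Ds G rk H b, u ≠ b → ∀ w, w ∉ Ds G rk H b → G.Adj u w → (u = q → w ∈ Q) →
      ((L.hi b < L.pos u w ∧ ¬ Cov G rk (Ds G rk H b) L (L.pos u w)) ↔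
        (Anc H q R u b ∧ R.hi b < R.pos u w))

/-- (k4) -/
def K4 : Prop :=
  ∀ (V : Type) [Finite V] (G : SimpleGraph V) (rk : V → ℕ) (H : Set V) (q : V) (Q : Set V)
    (L R : Ct V) (b : V),
    NH G rk H q Q L R → Sp G rk H q L b →
    ∀ u ∈ Ds G rk H b, Anc H q R u b ∨ R.hi u < R.lo b

/-- the dart `(w,x)` is a rung of `a` -/
def Rg (G : SimpleGraph V) (rk : V → ℕ) (H : Set V) (q a w x : V) : Prop :=
  w ∈ H ∧ w ≠ q ∧ x ∉ H ∧ Re G rk a x ∧ Ar G rk x w

/-- completeness of the formula for sources outside the hub -/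
def F2c : Prop :=
  ∀ (V : Type) [Finite V] (G : SimpleGraph V) (rk : V → ℕ) (H : Set V) (q : V) (Q : Set V)
    (L R : Ct V) (b : V),
    NH G rk H q Q L R → Sp G rk H q L b →
    ∀ a, a ∉ H → ¬ Re G rk a q → Re G rk a b →
      (∃ w x, Rg G rk H q a w x ∧ L.pos w x ≤ L.hi b ∧ L.hi b ≤ L.hi w) ∨
      (∃ w x, Rg G rk H q a w x ∧ R.lo w ≤ R.lo b ∧ R.lo b ≤ R.pos w x) ∨
      ((∃ w x, Rg G rk H q a w x ∧ L.hi b < L.pos w x) ∧
        ∀ w x, Rg G rk H q a w x → R.pos w x < R.hi b)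

/-- soundness of the third case -/
def F2s : Prop :=
  ∀ (V : Type) [Finite V] (G : SimpleGraph V) (rk : V → ℕ) (H : Set V) (q : V) (Q : Set V)
    (L R : Ct V) (b : V),
    NH G rk H q Q L R → Sp G rk H q L b →
    ∀ a, a ∉ H → ¬ Re G rk a q → ∀ w x, Rg G rk H q a w x → L.hi b < L.pos w x →
      R.pos w x < R.hi b → (∃ v ∈ H, v ≠ q ∧ Re G rk a v ∧ L.lo v ≤ L.lo b) → Re G rk a b

/-- sources inside the hub -/
def F1s : Prop :=
  ∀ (V : Type) [Finite V] (G : SimpleGraph V) (rk : V → ℕ) (H : Set V) (q : V) (Q : Set V)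
    (L R : Ct V) (b : V),
    NH G rk H q Q L R → Sp G rk H q L b →
    ∀ a ∈ H, a ≠ q → L.hi b < L.hi a → R.lo a < R.lo b →
      (∃ v ∈ H, v ≠ q ∧ Re G rk a v ∧ L.lo v ≤ L.lo b) → Re G rk a b

/-- the rungs of `a` not belonging to `h` lie in one gap of the rungs of `h` -/
def STA : Prop :=
  ∀ (V : Type) (G : SimpleGraph V) (rk : V → ℕ) (H : Set V) (q : V) (Q : Set V) (c : Ct V),
    IsCt G H q Q c → Up G rk H q → (∀ v ∈ H, v ≠ q → rk (c.par v) < rk v) →
    ∀ a h, a ∉ H → h ∉ H → ¬ Re G rk a q → ¬ Re G rk h q →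
    ∀ w x w' x' y z y' z', Rg G rk H q a w x → ¬ Re G rk h x → Rg G rk H q a w' x' → ¬ Re G rk h x' →
      Rg G rk H q h y z → Rg G rk H q h y' z' →
      ¬ (c.pos w x < c.pos y z ∧ c.pos y z < c.pos w' x' ∧ c.pos w' x' < c.pos y' z') ∧
      ¬ (c.pos y z < c.pos w x ∧ c.pos w x < c.pos y' z' ∧ c.pos y' z' < c.pos w' x')

/-! ## Part 2: the tree of nodes
`U = {v | Re G rk q0 v}`; a node is a vertex `y` (root of the node) with a threshold `t y`; `ρ b` = root of the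
node in which `b` is special. -/

/-- hub of the node `y` -/
def SU (G : SimpleGraph V) (rk : V → ℕ) (q0 : V) (L : Ct V) (t : V → ℤ) (y : V) : Set V :=
  {x | Re G rk q0 x ∧ (x = y ∨ (t y < L.lo x ∧ L.hi x < L.hi y))}

open Classical in
/-- sector of darts at the root of the node `y` -/
noncomputable def QU (G : SimpleGraph V) (q0 : V) (L : Ct V) (t : V → ℤ) (y : V) : Set V :=
  if y = q0 then Set.univ else {w | G.Adj y w ∧ w ≠ L.par y ∧ t y < L.pos y w}

/-- `y` is a node -/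
def Nd (G : SimpleGraph V) (rk : V → ℕ) (q0 : V) (ρ : V → V) (y : V) : Prop :=
  y = q0 ∨ ∃ b, Re G rk q0 b ∧ b ≠ q0 ∧ ρ b = y

/-- one step down in the tree `ρ` -/
def Dw (G : SimpleGraph V) (rk : V → ℕ) (q0 : V) (ρ : V → V) (x z : V) : Prop :=
  Re G rk q0 z ∧ z ≠ q0 ∧ ρ z = x

/-- the system of nodes -/
structure NS (G : SimpleGraph V) (rk : V → ℕ) (q0 : V) (L : Ct V) (ρ : V → V) (t : V → ℤ) :
    Prop where
  t0 : t q0 = L.lo q0
  rU : ∀ b, Re G rk q0 b → b ≠ q0 → Re G rk q0 (ρ b) ∧ rk (ρ b) < rk b ∧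
    b ∈ SU G rk q0 L t (ρ b)
  land : ∀ b, Re G rk q0 b → b ≠ q0 → ρ b ≠ q0 → ∃ u ∈ SU G rk q0 L t (ρ (ρ b)),
    Ar G rk u (ρ b) ∧ L.par (ρ b) ≠ u ∧ t (ρ b) = L.pos (ρ b) u
  sp : ∀ b, Re G rk q0 b → b ≠ q0 → Sp G rk (SU G rk q0 L t (ρ b)) (ρ b) L b
  anc : ∀ y b, Nd G rk q0 ρ y →
    ((b ∈ SU G rk q0 L t y ∧ b ≠ y) ↔ TransGen (Dw G rk q0 ρ) y b)

/-- existence of the system of nodes -/
def NSE : Prop :=
  ∀ (V : Type) [Finite V] (G : SimpleGraph V) (rk : V → ℕ) (q0 : V) (L R0 : Ct V),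
    NIok G rk {v | Re G rk q0 v} q0 Set.univ L R0 → ∃ ρ t, NS G rk q0 L ρ t

/-- a sector behind an in-arc is closed under reachability -/
def UPN : Prop :=
  ∀ (V : Type) (G : SimpleGraph V) (rk : V → ℕ) (q0 : V) (L R0 : Ct V),
    NIok G rk {v | Re G rk q0 v} q0 Set.univ L R0 →
    ∀ y u, Re G rk q0 y → Re G rk q0 u → y ≠ q0 → Ar G rk u y → L.par y ≠ u →
      Up G rk (Sec L {v | Re G rk q0 v} y u) y

/-- everything on nodes that is used later -/
structure Nodes (G : SimpleGraph V) (rk : V → ℕ) (q0 : V) (L : Ct V) (ρ : V → V) (t : V → ℤ)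
    (R : V → Ct V) : Prop where
  ns : NS G rk q0 L ρ t
  nh : ∀ y, Nd G rk q0 ρ y → NH G rk (SU G rk q0 L t y) y (QU G q0 L t y) L (R y)

/-- assembly of the nodes (from `NSE` and `UPN`) -/
def NOD : Prop :=
  ∀ (V : Type) [Finite V] (G : SimpleGraph V) (rk : V → ℕ) (q0 : V), Function.Injective rk →
    (∀ v, v ≠ q0 → rk q0 < rk v) → MTc G rk q0 → ∃ L ρ t R, Nodes G rk q0 L ρ t R

/-- `y` is active for `a` -/
def Act (G : SimpleGraph V) (rk : V → ℕ) (q0 : V) (L : Ct V) (ρ : V → V) (t : V → ℤ) (a y : V) :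
    Prop :=
  Nd G rk q0 ρ y ∧ a ∉ SU G rk q0 L t y ∧ ¬ Re G rk a y ∧
    ∃ v ∈ SU G rk q0 L t y, v ≠ y ∧ Re G rk a v

/-- an active node different from the root: `a` cannot leave the parent node -/
def AC1 : Prop :=
  ∀ (V : Type) (G : SimpleGraph V) (rk : V → ℕ) (q0 : V) (L : Ct V) (ρ : V → V)
    (t : V → ℤ) (R : V → Ct V), Nodes G rk q0 L ρ t R → ∀ a y, y ≠ q0 →
      Act G rk q0 L ρ t a y →
      (∀ v, Re G rk a v → Re G rk q0 v → t y < L.lo v ∧ v ∈ SU G rk q0 L t (ρ y) ∧ v ≠ ρ y) ∧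
      (Re G rk q0 a → ρ a = ρ y)

/-- the active nodes form a chain, and there is at most one for a vertex of `U` -/
def AC2 : Prop :=
  ∀ (V : Type) (G : SimpleGraph V) (rk : V → ℕ) (q0 : V) (L : Ct V) (ρ : V → V)
    (t : V → ℤ) (R : V → Ct V), Nodes G rk q0 L ρ t R → ∀ a y y', y ≠ q0 → y' ≠ q0 →
      Act G rk q0 L ρ t a y → Act G rk q0 L ρ t a y' →
      (ReflTransGen (Dw G rk q0 ρ) y y' ∨ ReflTransGen (Dw G rk q0 ρ) y' y) ∧
      (Re G rk q0 a → y = y')

/-- reduction to the nodes: `s a` and `act a` -/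
def RED : Prop :=
  ∀ (V : Type) [Finite V] (G : SimpleGraph V) (rk : V → ℕ) (q0 : V) (L : Ct V) (ρ : V → V)
    (t : V → ℤ) (R : V → Ct V), (∀ v, v ≠ q0 → rk q0 < rk v) → Nodes G rk q0 L ρ t R →
    ∃ s act : V → Option V, ∀ a, a ≠ q0 →
      (Re G rk q0 a → s a = some (ρ a)) ∧
      (∀ y, act a = some y → Act G rk q0 L ρ t a y ∧ (Re G rk q0 a → y ≠ q0 ∧ ρ y = ρ a)) ∧
      (¬ Re G rk q0 a → ∀ z, s a = some z → Act G rk q0 L ρ t a z) ∧
      ∀ b, Re G rk q0 b → b ≠ q0 → b ≠ a →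
        (∀ y, act a = some y → b ∈ SU G rk q0 L t y → b ≠ y →
          ∀ b', Dw G rk q0 ρ y b' → ReflTransGen (Dw G rk q0 ρ) b' b →
            (Re G rk a b ↔ Re G rk a b')) ∧
        ((¬ ∃ y, act a = some y ∧ b ∈ SU G rk q0 L t y ∧ b ≠ y) →
          (∀ z, s a = some z → b ∈ SU G rk q0 L t z → b ≠ z →
            ∀ b', Dw G rk q0 ρ z b' → ReflTransGen (Dw G rk q0 ρ) b' b →
              (Re G rk a b ↔ Re G rk a b')) ∧
          ((¬ ∃ z, s a = some z ∧ b ∈ SU G rk q0 L t z ∧ b ≠ z) → ¬ Re G rk a b))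

end Pool.BD
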