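import Pool.Agent.H56.BD.StmtsN
import Pool.Agent.H56.BD.Lexi
import Pool.Agent.H57.BD.Stmts

/-!
# Blocks F and T: the formula at one node with orders, words, the instance theorem
-/

set_option autoImplicit false

namespace Pool.BD

open Relation

/-! ## one node -/

/-- node instances -/
structure NInst : Type 1 where
  V : Type
  fin : Finite V
  G : SimpleGraph V
  rk : V → ℕ
  H : Set V
  q : V
  Q : Set V
  L : Ct V
  R : Ct V
  nh : NH G rk H q Q L R

/-- sources of a node -/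
def NInst.src (i : NInst) (a : i.V) : Prop :=
  a ∉ i.H ∧ ¬ Re i.G i.rk a i.q ∧ ∃ v ∈ i.H, v ≠ i.q ∧ Re i.G i.rk a v

/-- special vertices of a node -/
def NInst.sp (i : NInst) (b : i.V) : Prop := Sp i.G i.rk i.H i.q i.L b

/-- rungs on the path of `L` to `b`, on the left or at `b` (needs `IITStmt` of helper57, `STA`) -/
def MPL : Prop :=
  Bt (ι := NInst) (fun i => i.V) (fun i => i.V) (fun i a b => i.src a ∧ i.sp b)
    (fun i a b => ∃ w x, Rg i.G i.rk i.H i.q a w x ∧ i.L.pos w x ≤ i.L.hi b ∧ i.L.hi b ≤ i.L.hi w)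

/-- rungs on the path of `R` to `b`, on the right or at `b` (mirror) -/
def MMI : Prop :=
  Bt (ι := NInst) (fun i => i.V) (fun i => i.V) (fun i a b => i.src a ∧ i.sp b)
    (fun i a b => ∃ w x, Rg i.G i.rk i.H i.q a w x ∧ i.R.lo w ≤ i.R.lo b ∧ i.R.lo b ≤ i.R.pos w x)

/-- sources outside the node: reachability is a uniformly bounded two-copy relation -/
def F2N : Prop :=
  Bt (ι := NInst) (fun i => i.V) (fun i => i.V) (fun i a b => i.src a ∧ i.sp b)
    (fun i a b => Re i.G i.rk a b)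

/-- sources inside the node: three comparisons -/
def F1N : Prop :=
  ∀ i : NInst, ∃ lam : i.V → ℤ, ∀ a ∈ i.H, a ≠ i.q → ∀ b, i.sp b → a ≠ b →
    (Re i.G i.rk a b ↔ i.L.hi b < i.L.hi a ∧ i.R.lo a < i.R.lo b ∧ lam a ≤ lam b)

/-! ## words -/

section words

variable {V : Type}

/-- chain words of the tree `ρ` -/
structure IsSC (G : SimpleGraph V) (rk : V → ℕ) (q0 : V) (ρ : V → V) (SC : V → List (Fin 4 × V)) :
    Prop where
  root : SC q0 = []
  step : ∀ y, Re G rk q0 y → y ≠ q0 → SC y = SC (ρ y) ++ [(1, y)]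

end words

/-- existence of the chain words -/
def SCE : Prop :=
  ∀ (V : Type) (G : SimpleGraph V) (rk : V → ℕ) (q0 : V) (L : Ct V) (ρ : V → V) (t : V → ℤ),
    NS G rk q0 L ρ t → ∃ SC, IsSC G rk q0 ρ SC

/-- words of elements placed as leaves: there is always a first difference -/
def WPF : Prop :=
  ∀ (V : Type) (G : SimpleGraph V) (rk : V → ℕ) (q0 : V) (L : Ct V) (ρ : V → V) (t : V → ℤ)
    (SC : V → List (Fin 4 × V)) (z : V → V) (g : V → Fin 4),
    NS G rk q0 L ρ t → IsSC G rk q0 ρ SC → (∀ x, Re G rk q0 (z x)) → (∀ x, g x ≠ 1) →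
    ∀ x y, x ≠ y → ∃ (p s s' : List (Fin 4 × V)) (e e' : Fin 4 × V), e ≠ e' ∧
      SC (z x) ++ [(g x, x)] = p ++ e :: s ∧ SC (z y) ++ [(g y, y)] = p ++ e' :: s'

/-- analysis of the first difference when the letter of `x` is a leaf -/
def WFD : Prop :=
  ∀ (V : Type) (G : SimpleGraph V) (rk : V → ℕ) (q0 : V) (L : Ct V) (ρ : V → V) (t : V → ℤ)
    (SC : V → List (Fin 4 × V)) (z : V → V) (g : V → Fin 4),
    NS G rk q0 L ρ t → IsSC G rk q0 ρ SC → (∀ x, Re G rk q0 (z x)) → (∀ x, g x ≠ 1) →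
    ∀ x y (p s s' : List (Fin 4 × V)) (e e' : Fin 4 × V), e ≠ e' →
      SC (z x) ++ [(g x, x)] = p ++ e :: s → SC (z y) ++ [(g y, y)] = p ++ e' :: s' →
      ((e.1 = 1 ∧ ¬ ReflTransGen (Dw G rk q0 ρ) (z x) (z y)) ∨
       (e = (g x, x) ∧ ReflTransGen (Dw G rk q0 ρ) (z x) (z y) ∧
        ((e' = (g y, y) ∧ z y = z x) ∨
         (e'.1 = 1 ∧ Dw G rk q0 ρ (z x) e'.2 ∧ ReflTransGen (Dw G rk q0 ρ) e'.2 (z y)))))

/-! ## the instance theorem -/

/-- the conclusion of `RED` for given `s`, `act` -/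
def RedC {V : Type} (G : SimpleGraph V) (rk : V → ℕ) (q0 : V) (L : Ct V) (ρ : V → V) (t : V → ℤ)
    (s act : V → Option V) : Prop :=
  ∀ a, a ≠ q0 →
      (Re G rk q0 a → s a = some (ρ a)) ∧
      (∀ y, act a = some y → Act G rk q0 L ρ t a y ∧ (Re G rk q0 a → y ≠ q0 ∧ ρ y = ρ a)) ∧
      (¬ Re G rk q0 a → ∀ z, s a = some z → Act G rk q0 L ρ t a z) ∧
      ∀ b, Re G rk q0 b → b ≠ q0 → b ≠ a →
        (∀ y, act a = some y → b ∈ SU G rk q0 L t y → b ≠ y →
          ∀ b', Dw G rk q0 ρ y b' → ReflTransGen (Dw G rk q0 ρ) b' b →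
            (Re G rk a b ↔ Re G rk a b')) ∧
        ((¬ ∃ y, act a = some y ∧ b ∈ SU G rk q0 L t y ∧ b ≠ y) →
          (∀ z, s a = some z → b ∈ SU G rk q0 L t z → b ≠ z →
            ∀ b', Dw G rk q0 ρ z b' → ReflTransGen (Dw G rk q0 ρ) b' b →
              (Re G rk a b ↔ Re G rk a b')) ∧
          ((¬ ∃ z, s a = some z ∧ b ∈ SU G rk q0 L t z ∧ b ≠ z) → ¬ Re G rk a b))

/-- instances with all data -/
structure FInst : Type 1 where
  V : Type
  fin : Finite V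
  G : SimpleGraph V
  rk : V → ℕ
  q0 : V
  L : Ct V
  ρ : V → V
  t : V → ℤ
  R : V → Ct V
  nodes : Nodes G rk q0 L ρ t R
  s : V → Option V
  act : V → Option V
  red : RedC G rk q0 L ρ t s act
  SC : V → List (Fin 4 × V)
  sc : IsSC G rk q0 ρ SC

/-- INSTANCE THEOREM, with data (from `F2N`, `F1N`, `WPF`, `WFD`) -/
def INS : Prop :=
  Bd (ι := FInst) (fun i => i.V) (fun i a b => a ≠ i.q0 ∧ b ≠ i.q0 ∧ Re i.G i.rk i.q0 b)
    (fun i a b => Re i.G i.rk a b)

/-- plain instances -/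
structure PInst (Pl : ∀ V : Type, SimpleGraph V → Prop) : Type 1 where
  V : Type
  fin : Finite V
  G : SimpleGraph V
  rk : V → ℕ
  q0 : V
  pl : Pl V G
  inj : Function.Injective rk
  min : ∀ v, v ≠ q0 → rk q0 < rk v

/-- INSTANCE THEOREM (from `INS`, `MTStmt Pl`, `NOD`, `RED`, `SCE`) -/
def INSP (Pl : ∀ V : Type, SimpleGraph V → Prop) : Prop :=
  Bd (ι := PInst Pl) (fun i => i.V) (fun i a b => a ≠ i.q0 ∧ b ≠ i.q0 ∧ Re i.G i.rk i.q0 b)
    (fun i a b => Re i.G i.rk a b)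

end Pool.BD
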